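import Pool.Agent.Helper98.EY.StmtsB

/-!
# Full answer, part C: the regime of single slow bonds (barriers)
-/

namespace Pool.Agent.Helper98.EX

open Finset MeasureTheory ProbabilityTheory Filter
open scoped Topology

/-! ### two-body problem at a slow bond -/

/-- probability that a hole at `b-1-h` and a particle at `b+g` do not recombine over the bond `b`
within `i` steps (other sites step-like, reflecting windows of size `q`, no new crossings) -/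
noncomputable def tb (N : ℕ) (r l : ℕ → ℝ) (b q : ℕ) : ℕ → ℕ → ℕ → ℝ
  | 0, _, _ => 1
  | i + 1, h, g => tb N r l b q i h g + (1 / (2 * N)) * (
      (if h + 1 < q then r (b - 1 - h) * (tb N r l b q i (h + 1) g - tb N r l b q i h g) else 0) +
      (if 0 < h then l (b - h) * (tb N r l b q i (h - 1) g - tb N r l b q i h g) else 0) +
      (if g + 1 < q then r (b + g + 1) * (tb N r l b q i h (g + 1) - tb N r l b q i h g) else 0) +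
      (if 0 < g then l (b + g) * (tb N r l b q i h (g - 1) - tb N r l b q i h g) else 0) -
      (if h = 0 ∧ g = 0 then l b * tb N r l b q i h g else 0))

/-- total survival time; `r b * kap` is the capacity of the bond `b` in `m` steps -/
noncomputable def kap (N : ℕ) (r l : ℕ → ℝ) (b q m : ℕ) : ℝ :=
  (∑ i ∈ Finset.range m, tb N r l b q i 0 0) / (2 * N)

/-- numeric facts on `tb` -/
def ST_TBN : Prop := ∀ (N : ℕ) (r l : ℕ → ℝ) (b q : ℕ), Adm N r l → Pos N l → 1 ≤ q → q ≤ b →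
  b + q ≤ N → ∀ i h g, h < q → g < q →
  0 ≤ tb N r l b q i h g ∧ tb N r l b q i h g ≤ 1 ∧
  1 - tb N r l b q i h g ≤ i / (2 * N) * RR r l (b - 1 - h) (b - 1) ∧
  1 - tb N r l b q i h g ≤ i / (2 * N) * RR r l b (b + g)

/-- upper bound for the expected number of crossings from the step state -/
def ST_TWOG : Prop := ∀ (N : ℕ) (r l : ℕ → ℝ) (b q m : ℕ) (ep : ℝ), Adm N r l → Pos N l →
  2 ≤ q → q ≤ b → b + q ≤ N → 0 ≤ ep → RR r l (b + 1 - q) (b - 1) ≤ ep →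
  RR r l b (b + q - 2) ≤ ep → r b * m ≤ 2 * N →
  ev r l (fun _ => full N) m (fun ξ => (ht ξ b : ℝ)) (bot N b) ≤
    r b * kap N r l b q m + 2 * (r b * m / (2 * N)) ^ 2 + ((m : ℝ) / (2 * N)) ^ 2 * ep

/-- modified left rates -/
def ST_RTM : Prop := ∀ (N : ℕ) (r l : ℕ → ℝ) (b m : ℕ) (η : Cfg N), 1 ≤ N → Adm N r l →
  ev r l (fun _ => full N) m (fun ξ => (ht ξ b : ℝ)) η ≤
    ev r (modl N l) (fun _ => full N) m (fun ξ => (ht ξ b : ℝ)) η + m * (N : ℝ) ^ (-100 : ℝ)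

/-- crossings are dominated by those from the step state -/
def ST_CMOM : Prop := ∀ (N k b m J : ℕ) (r l : ℕ → ℝ), Adm N r l → k ≤ N → 1 ≤ b → b < N →
  (ev r l (fun _ => full N) (m * J) (fun ξ => (ht ξ b : ℝ)) (bot N k) ≤ ((k - b : ℕ) : ℝ) +
    J * ev r l (fun _ => full N) m (fun ξ => (ht ξ b : ℝ)) (bot N b)) ∧
  ∀ (v : ℕ) (lam : ℝ), 0 < lam → lam ≤ 1 / 2 → r b * m ≤ 2 * N →
  pr r l (fun _ => full N) (m * J) {ξ | v ≤ ht ξ b} (bot N k) ≤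
    Real.exp (-(lam * ((v : ℝ) - ((k - b : ℕ) : ℝ))) +
      J * (lam * (1 + lam) * ev r l (fun _ => full N) m (fun ξ => (ht ξ b : ℝ)) (bot N b) +
        4 * lam ^ 2 * (r b * m / (2 * N)) ^ 2))

/-! ### constants of the regime -/

/-- local window size -/
noncomputable def QQ (N : ℕ) : ℕ := ⌈Real.log N ^ 241⌉₊

/-- threshold of deep climbs -/
noncomputable def th3 (N : ℕ) : ℝ := N / Real.log N ^ 220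

/-- length of a phase of the brigade -/
noncomputable def ta3 (N : ℕ) : ℕ := ⌈8 * N * Real.log N ^ 12 * th3 N⌉₊

/-- reserves -/
noncomputable def rs (N : ℕ) : ℕ := ⌈2 * Real.log N ^ 243⌉₊ + 2

/-- open phase -/
noncomputable def msN (N : ℕ) : ℕ := ⌈2 * N * Real.log N ^ 4601⌉₊

/-- relaxation phase -/
noncomputable def mrN (N : ℕ) : ℕ := ⌈2 * N * Real.log N ^ 4600⌉₊

/-- number of particles crossing `b` between the lowest and the highest state -/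
noncomputable def dlt (N k b : ℕ) : ℝ := ((min k (N - b) : ℕ) : ℝ) - ((k - b : ℕ) : ℝ)

/-- capacity of the bond `b` in the open phase (window `w+2`) -/
noncomputable def cpb (N : ℕ) (r l : ℕ → ℝ) (w b : ℕ) : ℝ := r b * kap N r l b (w + 2) (msN N)

/-- position of `b` relative to the special sites -/
def Sepb (N k b : ℕ) : Prop := (N : ℝ) ^ (1 / 2 : ℝ) ≤ b ∧ (b : ℝ) + (N : ℝ) ^ (1 / 2 : ℝ) ≤ N ∧
  (N : ℝ) ^ (1 / 2 : ℝ) ≤ |(b : ℝ) - k| ∧ (N : ℝ) ^ (1 / 2 : ℝ) ≤ |(b : ℝ) - (N - k : ℕ)|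

/-- capacity from the time `m1` -/
def ST_CAPUP : Prop := ∀ (ε δ c C1 : ℝ) (m0 : ℕ), 0 < ε → 0 < δ → δ < 1 → 0 < c → ∃ N0 : ℕ,
  ∀ (N k b w m1 : ℕ) (r l : ℕ → ℝ), N0 ≤ N → c * N ≤ k → (k : ℝ) ≤ (1 - c) * N → Adm N r l →
  GE N r (modl N l) w C1 → r b * N ≤ Real.log N ^ 465 → Sepb N k b →
  ε / 4 ≤ pr r l (fun _ => full N) m1 (sorted 0 (N - k - m0) (N - k + m0) N) (bot N k) →
  (N : ℝ) ^ 2 / Real.log N ^ 200 ≤ (m1 : ℝ) / (2 * N) →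
  (m1 : ℝ) / (2 * N) ≤ (N : ℝ) ^ (17 / 8 : ℝ) →
  (1 - δ) * dlt N k b * msN N / m1 ≤ cpb N r (modl N l) w b

/-- lower bound of the capacities in the bulk -/
def ST_GAINC : Prop := ∀ (ε c c2 C1 : ℝ) (m0 : ℕ), 0 < ε → 0 < c → 0 < c2 → ∃ (c' : ℝ) (N0 : ℕ),
  0 < c' ∧ ∀ (N k b w m1 : ℕ) (r l : ℕ → ℝ), N0 ≤ N → c * N ≤ k → (k : ℝ) ≤ (1 - c) * N →
  Adm N r l → GE N r (modl N l) w C1 → r b * N ≤ Real.log N ^ 465 → c2 * N ≤ b →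
  (b : ℝ) ≤ (1 - c2) * N →
  ε / 4 ≤ pr r l (fun _ => full N) m1 (sorted 0 (N - k - m0) (N - k + m0) N) (bot N k) →
  (N : ℝ) ^ 2 / Real.log N ^ 200 ≤ (m1 : ℝ) / (2 * N) →
  (m1 : ℝ) / (2 * N) ≤ (N : ℝ) ^ (17 / 8 : ℝ) →
  c' * N * msN N / m1 ≤ cpb N r (modl N l) w b

/-! ### crossings at one slow bond -/

/-- open phase: a crossing with the right probability -/
def ST_BCOPEN : Prop := ∀ (N : ℕ) (r l : ℕ → ℝ) (b q m : ℕ) (η : Cfg N), Adm N r l → 1 ≤ q →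
  q ≤ b → b + q ≤ N → r b * m ≤ 2 * N → (∀ x, b ≤ x + q → x < b → occ η x = true) →
  (∀ x, b ≤ x → x < b + q → occ η x = false) →
  r b * kap N r l b q m - (r b * m / (2 * N)) ^ 2 ≤
    pr r l (fun _ => Finset.Ioo (b - q) (b + q)) m {ξ | ht η b + 1 ≤ ht ξ b} η ∧
  pr r l (fun _ => Finset.Ioo (b - q) (b + q)) m {ξ | ¬ hle 0 η ξ} η = 0

/-- values near a slow bond, without using this bond -/
structure Sur (N : ℕ) (r l : ℕ → ℝ) (b : ℕ) : Prop where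
  rp : ∀ z y : ℕ, b ≤ z → z ≤ y → (y : ℝ) ≤ b + 3 * Real.log N ^ 241 →
    vp r l z y ≤ Real.log N ^ 960
  rh : ∀ z y : ℕ, b < z → z ≤ y → (y : ℝ) ≤ b + 3 * Real.log N ^ 241 →
    vh r l z y ≤ Real.log N ^ 960
  lp : ∀ z y : ℕ, (b : ℝ) ≤ z + 3 * Real.log N ^ 241 → z ≤ y → y + 1 < b →
    vp r l z y ≤ Real.log N ^ 960
  lh : ∀ z y : ℕ, (b : ℝ) ≤ z + 3 * Real.log N ^ 241 → 1 ≤ z → z ≤ y → y < b →
    vh r l z y ≤ Real.log N ^ 960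

/-- crossing phase at one slow bond -/
def ST_BCPH : Prop := ∀ (C1 δ : ℝ), 0 < δ → δ < 1 → ∃ N0 : ℕ,
  ∀ (N w b J g : ℕ) (r l : ℕ → ℝ), N0 ≤ N → GE N r l w C1 → r b * N ≤ Real.log N ^ 465 →
  Sur N r l b → (N : ℝ) ^ (1 / 2 : ℝ) ≤ b → (b : ℝ) + (N : ℝ) ^ (1 / 2 : ℝ) ≤ N → J ≤ N ^ 2 →
  (g : ℝ) ≤ (1 - δ) * (J * (cpb N r l w b - (r b * msN N / (2 * N)) ^ 2)) →
  Real.log N ^ 3 ≤ J * (cpb N r l w b - (r b * msN N / (2 * N)) ^ 2) →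
  (g : ℝ) ≤ Real.log N ^ 240 + 2 →
  ∃ σ : ℕ → Finset ℕ, (∀ i, σ i ⊆ Finset.Ioo (b - QQ N) (b + QQ N)) ∧ ∀ η : Cfg N,
    (∀ x, b ≤ x + QQ N → x < b → occ η x = true) →
    (∀ x, b ≤ x → x < b + QQ N → occ η x = false) →
    pr r l σ (J * (msN N + mrN N)) {ξ | cnt ξ b (b + QQ N) < g} η ≤ (N : ℝ) ^ (-6 : ℝ)

/-! ### redistribution between two barriers -/

/-- values near the left end of an interval -/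
def EndL (N : ℕ) (r l : ℕ → ℝ) (A : ℕ) : Prop := ∀ z y : ℕ, A ≤ z → z ≤ y →
  (y : ℝ) ≤ A + 3 * Real.log N ^ 241 →
  vp r l z y ≤ (N : ℝ) ^ (3 / 4 : ℝ) ∧ (A < z → vh r l z y ≤ (N : ℝ) ^ (3 / 4 : ℝ))

/-- values near the right end of an interval -/
def EndR (N : ℕ) (r l : ℕ → ℝ) (B : ℕ) : Prop := ∀ z y : ℕ, z ≤ y → y < B →
  (B : ℝ) ≤ z + 3 * Real.log N ^ 241 →
  (1 ≤ z → vh r l z y ≤ (N : ℝ) ^ (3 / 4 : ℝ)) ∧ (y + 1 < B → vp r l z y ≤ (N : ℝ) ^ (3 / 4 : ℝ))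

/-- good interfaces exist -/
def ST_SPOT : Prop := ∀ C1 : ℝ, ∃ N0 : ℕ, ∀ (N w x : ℕ) (r l : ℕ → ℝ) (θ : ℝ), N0 ≤ N →
  GE N r l w C1 → 0 < θ → N * Real.log N ^ 25 < θ ^ 2 → Real.log N ^ 8 ≤ x →
  (x : ℝ) + Real.log N ^ 8 ≤ N →
  ∃ x1 : ℕ, |(x1 : ℝ) - x| ≤ 30 * Real.log N ^ 7 ∧ Shal r l (Real.log N ^ 7) w x1 ∧
    (∀ z y : ℕ, z ≤ y → y < x1 → (x1 : ℝ) ≤ y + 3 * Real.log N ^ 7 → vp r l z y ≤ θ) ∧
    (∀ a z : ℕ, x1 ≤ a → a ≤ z → z < N → (a : ℝ) < x1 + 3 * Real.log N ^ 7 → vh r l a z ≤ θ)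

/-- sorted state of an interval `[A,B)` with interface `x`: clean ends, few misplaced particles -/
def Srt (N : ℕ) (A B x : ℕ) (η : Cfg N) : Prop :=
  (∀ y, A ≤ y → y < A + QQ N → occ η y = false) ∧
  (∀ y, y < B → B ≤ y + QQ N → occ η y = true) ∧ (cnt η A x : ℝ) ≤ Real.log N ^ 231

/-- redistribution -/
def ST_RED : Prop := ∀ C1 : ℝ, 0 ≤ C1 → ∃ N0 : ℕ, ∀ (N w A B x n : ℕ) (r l : ℕ → ℝ), N0 ≤ N →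
  GE N r l w C1 → B ≤ N → NoHP N r l A B (th3 N) → EndL N r l A → EndR N r l B →
  (A : ℝ) + Real.log N ^ 243 ≤ x → (x : ℝ) + Real.log N ^ 243 ≤ B →
  (A : ℝ) + n + Real.log N ^ 232 ≤ x → (x : ℝ) + n + Real.log N ^ 232 ≤ B →
  ∃ (σ : ℕ → Finset ℕ) (ζ : Cfg N), (∀ i, σ i ⊆ Finset.Ioo A B) ∧ cnt ζ A B = B - x ∧
    (∀ η : Cfg N, cnt η A B = B - x → cnt η A x ≤ n →
      ∀ y, A ≤ y → y ≤ B → cnt η A y ≤ cnt ζ A y) ∧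
    ∀ η : Cfg N, (∀ y, A ≤ y → y < B → occ η y = occ ζ y) →
      pr r l σ (3 * ta3 N * (n + ⌈Real.log N ^ 8⌉₊)) {ξ | ¬ (cnt ξ A B = B - x ∧ Srt N A B x ξ)} η ≤
        (N : ℝ) ^ (-6 : ℝ)

/-! ### macroscopic steps -/

/-- barriers `bb 1 < ... < bb p`, with `bb 0 = 0`, `bb (p+1) = N` -/
structure BL (N p : ℕ) (bb : ℕ → ℕ) : Prop where
  b0 : bb 0 = 0
  bN : bb (p + 1) = N
  gap : ∀ i, i ≤ p → (bb i : ℝ) + (N : ℝ) ^ (1 / 2 : ℝ) ≤ bb (i + 1)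

/-- barrier environment -/
structure BE (N : ℕ) (r l : ℕ → ℝ) (w : ℕ) (C1 : ℝ) (p : ℕ) (bb : ℕ → ℕ) : Prop where
  ge : GE N r l w C1
  bl : BL N p bb
  slow : ∀ i, 1 ≤ i → i ≤ p → r (bb i) * N ≤ Real.log N ^ 465
  sur : ∀ i, 1 ≤ i → i ≤ p → Sur N r l (bb i)
  nohp : ∀ i, i ≤ p → NoHP N r l (bb i) (bb (i + 1)) (th3 N)
  e0 : EndL N r l 0
  eN : EndR N r l N
  card : (p : ℝ) ≤ Real.log N ^ 466

/-- interface of the interval `i` when the heights at the barriers are `h` -/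
def xi (bb h : ℕ → ℕ) (i : ℕ) : ℕ := bb (i + 1) - (h i - h (i + 1))

/-- class of states: heights `h` at the barriers; the intervals in `I0` have at most `n` misplaced
particles, the other intervals are sorted -/
def Wcl (N p : ℕ) (bb h : ℕ → ℕ) (I0 : Finset ℕ) (n : ℕ) : Set (Cfg N) := {η | ∀ i, i ≤ p →
  ht η (bb i) = h i ∧ (i ∈ I0 → cnt η (bb i) (xi bb h i) ≤ n) ∧
  (i ∉ I0 → Srt N (bb i) (bb (i + 1)) (xi bb h i) η)}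

/-- states above a state of a class -/
def Up {N : ℕ} (k : ℕ) (A : Set (Cfg N)) : Set (Cfg N) := {ξ | ht ξ 0 = k ∧ ∃ η ∈ A, hle 0 η ξ}

/-- there is room in all intervals -/
def Room (N p : ℕ) (bb h : ℕ → ℕ) (v : ℝ) : Prop := h (p + 1) = 0 ∧ ∀ i, i ≤ p →
  (h (i + 1) : ℝ) + v ≤ h i ∧ (h i : ℝ) + v ≤ h (i + 1) + ((bb (i + 1) : ℝ) - bb i)

/-- redistribution in the intervals of `I0` -/
def ST_MSR : Prop := ∀ C1 : ℝ, 0 ≤ C1 → ∃ N0 : ℕ, ∀ (N p w k n : ℕ) (bb h : ℕ → ℕ)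
  (I0 : Finset ℕ) (r l : ℕ → ℝ), N0 ≤ N → BE N r l w C1 p bb → h 0 = k → k ≤ N →
  Room N p bb h (Real.log N ^ 243) →
  (∀ i, i ∈ I0 → i ≤ p ∧ (n : ℝ) + Real.log N ^ 232 ≤ (h i : ℝ) - h (i + 1) ∧
    (n : ℝ) + Real.log N ^ 232 ≤ ((bb (i + 1) : ℝ) - bb i) - ((h i : ℝ) - h (i + 1))) →
  ∃ σ : ℕ → Finset ℕ, (∀ i, σ i ⊆ full N) ∧ ∀ ξ : Cfg N, ξ ∈ Up k (Wcl N p bb h I0 n) →
    pr r l σ (3 * ta3 N * (n + ⌈Real.log N ^ 8⌉₊)) (Up k (Wcl N p bb h ∅ 0))ᶜ ξ ≤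
      (N : ℝ) ^ (-5 : ℝ) / 2

/-- crossing phase at all barriers -/
def ST_MSB : Prop := ∀ (C1 δ : ℝ), 0 < δ → δ < 1 → ∃ N0 : ℕ, ∀ (N p w k J : ℕ)
  (bb h h' : ℕ → ℕ) (r l : ℕ → ℝ), N0 ≤ N → BE N r l w C1 p bb → h 0 = k → h' 0 = k → k ≤ N →
  Room N p bb h (Real.log N ^ 243) → Room N p bb h' (Real.log N ^ 243) → J ≤ N ^ 2 →
  (∀ i, 1 ≤ i → i ≤ p → h i ≤ h' i ∧ (h' i : ℝ) ≤ h i + Real.log N ^ 240 + 2 ∧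
    (h' i : ℝ) - h i ≤
      (1 - δ) * (J * (cpb N r l w (bb i) - (r (bb i) * msN N / (2 * N)) ^ 2)) ∧
    Real.log N ^ 3 ≤ J * (cpb N r l w (bb i) - (r (bb i) * msN N / (2 * N)) ^ 2)) →
  ∃ σ : ℕ → Finset ℕ, (∀ i, σ i ⊆ full N) ∧ ∀ ξ : Cfg N, ξ ∈ Up k (Wcl N p bb h ∅ 0) →
    pr r l σ (J * (msN N + mrN N))
      (Up k (Wcl N p bb h' (Finset.range (p + 1)) ⌈3 * Real.log N ^ 240⌉₊))ᶜ ξ ≤
      (N : ℝ) ^ (-5 : ℝ) / 2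

/-- linear interpolation between two height profiles -/
def ST_MSJ : Prop := ∀ (C1 δ c' : ℝ), 0 ≤ C1 → 0 < δ → δ ≤ 1 / 20 → 0 < c' → ∃ N0 : ℕ,
  ∀ (N p w k m1 : ℕ) (bb h0 h1 : ℕ → ℕ) (r l : ℕ → ℝ), N0 ≤ N → BE N r l w C1 p bb →
  h0 0 = k → h1 0 = k → k ≤ N → Room N p bb h0 (2 * Real.log N ^ 243) →
  Room N p bb h1 (2 * Real.log N ^ 243) → (∀ i, i ≤ p + 1 → h0 i ≤ h1 i) →
  (∀ i, 1 ≤ i → i ≤ p → (1 - δ) * ((h1 i : ℝ) - h0 i) * msN N / m1 ≤ cpb N r l w (bb i) ∧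
    c' * N * msN N / m1 ≤ cpb N r l w (bb i)) →
  (N : ℝ) ^ 2 / Real.log N ^ 200 ≤ (m1 : ℝ) / (2 * N) →
  (m1 : ℝ) / (2 * N) ≤ (N : ℝ) ^ (17 / 8 : ℝ) →
  ∃ (σ : ℕ → Finset ℕ) (m : ℕ), (∀ i, σ i ⊆ full N) ∧ (m : ℝ) ≤ (1 + 20 * δ) * m1 ∧
    ∀ ξ : Cfg N, ξ ∈ Up k (Wcl N p bb h0 ∅ 0) →
      pr r l σ m (Up k (Wcl N p bb h1 ∅ 0))ᶜ ξ ≤ (N : ℝ) ^ (-3 : ℝ)

/-! ### first and last stage -/

/-- initial heights at the barriers -/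
noncomputable def hz0 (N p k : ℕ) (bb : ℕ → ℕ) (i : ℕ) : ℕ :=
  if bb i ≤ k then (k - bb i) + i * rs N else (p + 1 - i) * rs N

/-- final heights at the barriers -/
noncomputable def hz1 (N p k : ℕ) (bb : ℕ → ℕ) (i : ℕ) : ℕ :=
  if bb i ≤ N - k then k - i * rs N else (N - bb i) - (p + 1 - i) * rs N

/-- barriers are far from the special sites -/
def SepB (N k p : ℕ) (bb : ℕ → ℕ) : Prop := ∀ i, 1 ≤ i → i ≤ p → Sepb N k (bb i)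

/-- numeric facts on the two profiles -/
def ST_HZN : Prop := ∀ c : ℝ, 0 < c → ∃ N0 : ℕ, ∀ (N p k : ℕ) (bb : ℕ → ℕ), N0 ≤ N →
  c * N ≤ k → (k : ℝ) ≤ (1 - c) * N → BL N p bb → SepB N k p bb →
  (p : ℝ) ≤ Real.log N ^ 466 →
  hz0 N p k bb 0 = k ∧ hz1 N p k bb 0 = k ∧
  Room N p bb (hz0 N p k bb) (2 * Real.log N ^ 243) ∧
  Room N p bb (hz1 N p k bb) (2 * Real.log N ^ 243) ∧
  (∀ i, i ≤ p + 1 → hz0 N p k bb i ≤ hz1 N p k bb i ∧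
    (hz1 N p k bb i : ℝ) - hz0 N p k bb i ≤ dlt N k (bb i))

/-- transfer of `q` particles from the bulk to the right end and of `q` holes to the left end -/
def ST_TRANS : Prop := ∀ (γ η0 Cs : ℝ), 0 < γ → γ ≤ 1 → 0 < η0 → η0 ≤ 1 → 0 ≤ Cs → ∃ N0 : ℕ,
  ∀ (N k q w : ℕ) (r l : ℕ → ℝ) (as ell : ℝ), N0 ≤ N → 3 * w ≤ q → 2 * q ≤ k → 2 * q + k ≤ N →
  SEnv N r l (k - q) (N - q) N w η0 as γ Cs → SEnv N r l 0 q k w η0 as γ Cs →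
  1 ≤ as → (N : ℝ) ^ γ * as ≤ ell →
  ∃ (σ : ℕ → Finset ℕ) (m : ℕ), (∀ i, σ i ⊆ full N) ∧
    (m : ℝ) ≤ 4 * N * (8 * (∑ y ∈ Finset.range (N - 1), (atl r l η0 w y +
      atl (mirr N r) (mirr N l) η0 w y) + (3 * q + 4) * ell)) ∧
    pr r l σ m {ξ | ¬ ∀ y, y ≤ N → min k (min (N - y) ((k - y) + (q - w))) ≤ ht ξ y}
      (bot N k) ≤ 2 * (N : ℝ) ^ (-5 : ℝ)

/-- first stage: from the state after the transfer to the first profile -/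
def ST_ST0 : Prop := ∀ (C1 c : ℝ), 0 ≤ C1 → 0 < c → ∃ N0 : ℕ, ∀ (N p w k q : ℕ) (bb : ℕ → ℕ)
  (r l : ℕ → ℝ), N0 ≤ N → c * N ≤ k → (k : ℝ) ≤ (1 - c) * N → BE N r l w C1 p bb →
  SepB N k p bb → (p + 2) * rs N ≤ q →
  ∃ (σ : ℕ → Finset ℕ) (m : ℕ), (∀ i, σ i ⊆ full N) ∧ m ≤ 6 * N * ta3 N ∧
    ∀ ξ : Cfg N, ht ξ 0 = k → (∀ y, y ≤ N → min k (min (N - y) ((k - y) + q)) ≤ ht ξ y) →
      pr r l σ m (Up k (Wcl N p bb (hz0 N p k bb) ∅ 0))ᶜ ξ ≤ (N : ℝ) ^ (-5 : ℝ)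

/-- the last profile is close to the highest state -/
def ST_ENDZ : Prop := ∀ c : ℝ, 0 < c → ∃ N0 : ℕ, ∀ (N p k : ℕ) (bb : ℕ → ℕ), N0 ≤ N →
  c * N ≤ k → (k : ℝ) ≤ (1 - c) * N → BL N p bb → SepB N k p bb →
  (p : ℝ) ≤ Real.log N ^ 466 → ∀ ξ : Cfg N, ξ ∈ Up k (Wcl N p bb (hz1 N p k bb) ∅ 0) →
  hle 0 (zet N 0 N (N - k) ⌈Real.log N ^ 720⌉₊) ξ

/-- conditions at an auxiliary interface -/
structure NearS (N : ℕ) (r l : ℕ → ℝ) (x0 w : ℕ) (γ Cs : ℝ) : Prop where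
  near : ∀ z x, x0 ≤ z + 3 * w → z ≤ x → x < x0 + 3 * w → RR r l z x ≤ (N : ℝ) ^ (γ / 10)
  rlow : ∀ b, x0 < b + 3 * w → b < x0 + 3 * w → (N : ℝ) ^ (-(γ / 10)) ≤ r b
  zs : ∑ z ∈ Finset.Ico (x0 - 3 * w) x0, RR r l z x0 +
    ∑ x ∈ Finset.Ico x0 (x0 + 3 * w), RR r l x0 x ≤ Cs

/-- streaming conditions at auxiliary interfaces -/
def ST_SEN : Prop := ∃ N0 : ℕ, ∀ (N k : ℕ) (r l : ℕ → ℝ) (w m0 : ℕ)
  (η0 as γ Cs C1 c1 e0 : ℝ), N0 ≤ N → 0 < η0 → GEnv N k r l w m0 η0 as γ Cs C1 c1 e0 →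
  (∀ y, y + 1 < N → atl r (modl N l) η0 w y ≤ as + 1 ∧
    atl (mirr N r) (mirr N (modl N l)) η0 w y ≤ as + 1) ∧
  (∑ y ∈ Finset.range (N - 1), atl r (modl N l) η0 w y ≤ (C1 + 1) * N ∧
    ∑ y ∈ Finset.range (N - 1), atl (mirr N r) (mirr N (modl N l)) η0 w y ≤ (C1 + 1) * N) ∧
  ∀ A x0 B : ℕ, NearS N r (modl N l) x0 w γ Cs → A + 3 * w ≤ x0 → x0 + 3 * w ≤ B → B < N + 1 →
    x0 < N → SEnv N r (modl N l) A x0 B w η0 (as + 1) γ Cs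

/-- deterministic theorem 4 -/
def ST_DT4 : Prop := ∀ (ε δ γ η0 Cs C1 c1 c c' : ℝ) (m0 : ℕ), 0 < ε → ε ≤ 1 → 0 < δ → δ ≤ 1 →
  0 < γ → γ ≤ 1 / 100 → 0 < η0 → η0 ≤ 1 → 0 ≤ Cs → 0 ≤ C1 → 0 < c1 → c1 ≤ 1 → 0 < c → 0 < c' →
  ∃ N0 : ℕ, ∀ (N k : ℕ) (r l : ℕ → ℝ) (w m1 : ℕ) (as : ℝ) (p : ℕ) (bb : ℕ → ℕ), N0 ≤ N →
  c * N ≤ k → (k : ℝ) ≤ (1 - c) * N → GEnv N k r l w m0 η0 as γ Cs C1 c1 (ε / 32) →
  BE N r (modl N l) w C1 p bb → SepB N k p bb → as ≤ (N : ℝ) ^ (1 + 3 * γ) →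
  NearS N r (modl N l) ⌈Real.log N ^ 715⌉₊ w γ Cs →
  NearS N r (modl N l) (N - ⌈Real.log N ^ 715⌉₊) w γ Cs →
  (∀ i, 1 ≤ i → i ≤ p → c' * N * msN N / m1 ≤ cpb N r (modl N l) w (bb i)) →
  ε / 4 ≤ pr r l (fun _ => full N) m1 (sorted 0 (N - k - m0) (N - k + m0) N) (bot N k) →
  (N : ℝ) ^ 2 / Real.log N ^ 200 ≤ (m1 : ℝ) / (2 * N) →
  (m1 : ℝ) / (2 * N) ≤ (N : ℝ) ^ (17 / 8 : ℝ) →
  nohit r l (full N) {top N k} ⌈(1 + δ) * (m1 : ℝ)⌉₊ (bot N k) ≤ ε / 4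

/-! ### random environment -/

/-- triple products -/
def ST_EVTRI : Prop := ∀ (Ω : Type) [MeasurableSpace Ω] (P : Measure Ω) (X : ℕ → Ω → ℝ) (θ : ℝ),
  IIDE P X → 0 < θ → θ < 1 → Mom P X 1 ≤ ENNReal.ofReal θ → ∀ ηp : ℝ, 0 < ηp →
  ∃ N0 : ℕ, ∀ N : ℕ, N0 ≤ N →
  P {ω | ¬ ∀ a b y : ℕ, 1 ≤ a → a + 1 ≤ b → b ≤ y → y + 1 < N → (y : ℝ) ≤ a + Real.log N ^ 8 →
      vh (rE (EE X ω)) (mE N (EE X ω)) a (b - 1) * vp (rE (EE X ω)) (mE N (EE X ω)) b y ≤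
        N * Real.log N ^ 25 * rE (EE X ω) b} ≤ ENNReal.ofReal ηp

open Classical in
/-- slow bonds -/
noncomputable def slowB (N : ℕ) (r : ℕ → ℝ) : Finset ℕ :=
  (Finset.Ico 1 N).filter (fun b => r b * N ≤ Real.log N ^ 465)

/-- geometry of the slow bonds -/
def ST_EVSLOW : Prop := ∀ (Ω : Type) [MeasurableSpace Ω] (P : Measure Ω) (X : ℕ → Ω → ℝ) (θ : ℝ),
  IIDE P X → 0 < θ → θ < 1 → Mom P X 1 ≤ ENNReal.ofReal θ → ∀ c ηp : ℝ, 0 < c → 0 < ηp →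
  ∃ N0 : ℕ, ∀ N k : ℕ, N0 ≤ N → c * N ≤ k → (k : ℝ) ≤ (1 - c) * N →
  P {ω | ¬ (((slowB N (rE (EE X ω))).card : ℝ) ≤ Real.log N ^ 466 ∧
      (∀ b ∈ slowB N (rE (EE X ω)), Sepb N k b ∧ Sur N (rE (EE X ω)) (mE N (EE X ω)) b) ∧
      (∀ b ∈ slowB N (rE (EE X ω)), ∀ b' ∈ slowB N (rE (EE X ω)), b < b' →
        (b : ℝ) + (N : ℝ) ^ (1 / 2 : ℝ) ≤ b'))} ≤ ENNReal.ofReal ηp

/-- values near the ends of the segment -/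
def ST_EVEND : Prop := ∀ (Ω : Type) [MeasurableSpace Ω] (P : Measure Ω) (X : ℕ → Ω → ℝ) (θ : ℝ),
  IIDE P X → 0 < θ → θ < 1 → Mom P X 1 ≤ ENNReal.ofReal θ → ∀ ηp : ℝ, 0 < ηp →
  ∃ N0 : ℕ, ∀ N : ℕ, N0 ≤ N →
  P {ω | ¬ (EndL N (rE (EE X ω)) (mE N (EE X ω)) 0 ∧
      EndR N (rE (EE X ω)) (mE N (EE X ω)) N)} ≤ ENNReal.ofReal ηp

/-- auxiliary interfaces -/
def ST_EVNS : Prop := ∀ (Ω : Type) [MeasurableSpace Ω] (P : Measure Ω) (X : ℕ → Ω → ℝ) (θ : ℝ),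
  IIDE P X → 0 < θ → θ < 1 → Mom P X 1 ≤ ENNReal.ofReal θ → ∀ ηp γ : ℝ, 0 < ηp → 0 < γ →
  ∃ (Cs : ℝ) (N0 : ℕ), 0 ≤ Cs ∧ ∀ N w x0 : ℕ, N0 ≤ N → 3 * w ≤ x0 → x0 + 3 * w ≤ N →
  (w : ℝ) ≤ Real.log N ^ 2 →
  P {ω | ¬ NearS N (rE (EE X ω)) (mE N (EE X ω)) x0 w γ Cs} ≤ ENNReal.ofReal ηp

/-- the smallest capacity of a slow bond is attained in the bulk -/
def ST_EXB : Prop := ∀ (Ω : Type) [MeasurableSpace Ω] (P : Measure Ω) (X : ℕ → Ω → ℝ) (θ : ℝ),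
  IIDE P X → 0 < θ → θ < 1 → Mom P X 1 ≤ ENNReal.ofReal θ → ∀ ηp : ℝ, 0 < ηp →
  ∃ c2 : ℝ, 0 < c2 ∧ c2 < 1 / 4 ∧ ∃ N0 : ℕ, ∀ N w : ℕ, N0 ≤ N → 1 ≤ w →
  (w : ℝ) ≤ Real.log N ^ 2 →
  P {ω | ¬ ∀ b : ℕ, w + 2 ≤ b → b + (w + 2) ≤ N →
      rE (EE X ω) b * N ≤ Real.log N ^ 465 → ∃ b' : ℕ, c2 * N ≤ b' ∧ (b' : ℝ) ≤ (1 - c2) * N ∧
      rE (EE X ω) b' * N ≤ Real.log N ^ 465 ∧
      cpb N (rE (EE X ω)) (mE N (EE X ω)) w b' ≤ cpb N (rE (EE X ω)) (mE N (EE X ω)) w b} ≤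
    ENNReal.ofReal ηp

/-- enumeration of the barriers -/
def ST_BARR : Prop := ∀ C1 : ℝ, ∃ N0 : ℕ, ∀ (N w k : ℕ) (r l : ℕ → ℝ), N0 ≤ N → GE N r l w C1 →
  (∀ a b y : ℕ, 1 ≤ a → a + 1 ≤ b → b ≤ y → y + 1 < N → (y : ℝ) ≤ a + Real.log N ^ 8 →
    vh r l a (b - 1) * vp r l b y ≤ N * Real.log N ^ 25 * r b) →
  ((slowB N r).card : ℝ) ≤ Real.log N ^ 466 →
  (∀ b ∈ slowB N r, Sepb N k b ∧ Sur N r l b) →
  (∀ b ∈ slowB N r, ∀ b' ∈ slowB N r, b < b' → (b : ℝ) + (N : ℝ) ^ (1 / 2 : ℝ) ≤ b') →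
  EndL N r l 0 → EndR N r l N →
  ∃ (p : ℕ) (bb : ℕ → ℕ), BE N r l w C1 p bb ∧ SepB N k p bb

/-- everything about the environment -/
def ST_ENV4 : Prop := ∀ (Ω : Type) [MeasurableSpace Ω] (P : Measure Ω) (X : ℕ → Ω → ℝ),
  IIDE P X → Mom P X 1 < 1 → ∀ c ηp e0 γ : ℝ, 0 < c → 0 < ηp → 0 < e0 → 0 < γ → γ ≤ 1 →
  ∃ (η0 Cs C1 c1 c2 : ℝ) (m0 : ℕ), 0 < η0 ∧ η0 ≤ 1 ∧ 0 ≤ Cs ∧ 0 ≤ C1 ∧ 0 < c1 ∧
  c1 ≤ 1 ∧ 0 < c2 ∧ c2 < 1 / 4 ∧ ∃ N0 : ℕ, ∀ N k : ℕ, N0 ≤ N → c * N ≤ k → (k : ℝ) ≤ (1 - c) * N →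
  P {ω | ¬ ∃ (w : ℕ) (as : ℝ),
      GEnv N k (rE (EE X ω)) (lE (EE X ω)) w m0 η0 as γ Cs C1 c1 e0 ∧
      Cen N (rE (EE X ω)) (mE N (EE X ω)) (N - k) w ∧
      (∀ p, p = 0 ∨ p = N - 1 ∨ p = N - k →
        Near N (rE (EE X ω)) (mE N (EE X ω)) p (2 * Real.log N ^ 8) ((N : ℝ) ^ (1 / 4 : ℝ))) ∧
      as ≤ (N : ℝ) ^ (1 + 3 * γ) ∧
      (∀ κ : ℝ, (N : ℝ) ^ γ ≤ κ →
        (∀ A B : ℕ, c2 * N ≤ A → A ≤ B → (B : ℝ) ≤ A + Real.log N ^ 8 →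
          (B : ℝ) + 1 ≤ (1 - c2) * N → ∃ y, A ≤ y ∧ y ≤ B ∧
          vp (rE (EE X ω)) (lE (EE X ω)) y B ≤ κ ∧ vh (rE (EE X ω)) (lE (EE X ω)) A y ≤ κ) →
        CAPc N (rE (EE X ω)) (lE (EE X ω)) κ) ∧
      (∀ κ : ℝ, CAPc N (rE (EE X ω)) (lE (EE X ω)) κ →
        as ≤ (N : ℝ) ^ (2 * γ) * (κ ^ 2 + (N : ℝ) ^ (1 / 4 : ℝ))) ∧
      NearS N (rE (EE X ω)) (mE N (EE X ω)) ⌈Real.log N ^ 715⌉₊ w γ Cs ∧
      NearS N (rE (EE X ω)) (mE N (EE X ω)) (N - ⌈Real.log N ^ 715⌉₊) w γ Cs ∧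
      (∃ (p : ℕ) (bb : ℕ → ℕ), BE N (rE (EE X ω)) (mE N (EE X ω)) w C1 p bb ∧
        SepB N k p bb) ∧
      (∀ b : ℕ, w + 2 ≤ b → b + (w + 2) ≤ N →
        rE (EE X ω) b * N ≤ Real.log N ^ 465 → ∃ b' : ℕ, c2 * N ≤ b' ∧
        (b' : ℝ) ≤ (1 - c2) * N ∧ rE (EE X ω) b' * N ≤ Real.log N ^ 465 ∧
        cpb N (rE (EE X ω)) (mE N (EE X ω)) w b' ≤
          cpb N (rE (EE X ω)) (mE N (EE X ω)) w b)} ≤ ENNReal.ofReal ηp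

/-- nestling and marginal nestling ballistic laws -/
def ST_MAINN4 : Prop := ∀ (Ω : Type) [MeasurableSpace Ω] (P : Measure Ω) (X : ℕ → Ω → ℝ),
  IIDE P X → Mom P X 1 < 1 → (∀ t : ℝ, 0 < t → P {ω | X 0 ω < 1 / 2 + t} ≠ 0) → CutGoal P X

/-- the final theorem: every ballistic law -/
def ST_MAIN4 : Prop := ∀ (Ω : Type) [MeasurableSpace Ω] (P : Measure Ω) (X : ℕ → Ω → ℝ)
  (k : ℕ → ℕ), IIDE P X → Mom P X 1 < 1 → (∀ N, k N ≤ N) →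
  0 < liminf (fun N => (k N : ℝ) / N) atTop → limsup (fun N => (k N : ℝ) / N) atTop < 1 →
  (∀ N, 1 ≤ N → ∀ ω, ∃! π : Conf N (k N) → ℝ, IsStatC (EE X ω) N (k N) π) ∧
  ∀ π : (N : ℕ) → Ω → Conf N (k N) → ℝ, (∀ N, 1 ≤ N → ∀ ω, IsStatC (EE X ω) N (k N) (π N ω)) →
  ∀ ε δ : ℝ, 0 < ε → ε < 1 / 2 → 0 < δ →
  Tendsto (fun N => P {ω | δ < |tmix (EE X ω) N (k N) (π N ω) ε /
    tmix (EE X ω) N (k N) (π N ω) (1 - ε) - 1|}) atTop (𝓝 0)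

end Pool.Agent.Helper98.EX
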