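import Pool.Agent.Helper98.EY.StmtsA

/-!
# Full answer, part B: laws with a moment of order larger than one
-/

namespace Pool.Agent.Helper98.EX

open Finset MeasureTheory ProbabilityTheory Filter
open scoped Topology

/-! ### environment conditions (for the modified left rates) -/

/-- global conditions -/
structure GE (N : ℕ) (r l : ℕ → ℝ) (w : ℕ) (C1 : ℝ) : Prop where
  adm : Adm N r l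
  pos : ∀ x, 0 < r x ∧ 0 ≤ l x
  low : ∀ x, 1 ≤ x → x < N → (N : ℝ) ^ (-100 : ℝ) ≤ l x
  rlow : ∀ x, 1 ≤ x → x < N → (N : ℝ) ^ (-2 : ℝ) ≤ r x
  far : ∀ z x, z + w ≤ x → x < N → RR r l z x ≤ (N : ℝ) ^ (-11 : ℝ)
  w1 : 1 ≤ w
  wlog : (w : ℝ) ≤ Real.log N ^ 2
  pp : ∀ z y z' y' : ℕ, z ≤ y → y < z' → z' ≤ y' → y' + 1 < N →
    (y' : ℝ) ≤ z + Real.log N ^ 8 → vp r l z y * vp r l z' y' ≤ N * Real.log N ^ 25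
  hh : ∀ z y z' y' : ℕ, 1 ≤ z → z ≤ y → y < z' → z' ≤ y' → y' < N →
    (y' : ℝ) ≤ z + Real.log N ^ 8 → vh r l z y * vh r l z' y' ≤ N * Real.log N ^ 25
  hp : ∀ a z y b : ℕ, 1 ≤ a → a ≤ z → z ≤ y → y ≤ b → b + 1 < N →
    (b : ℝ) ≤ a + Real.log N ^ 8 → vh r l a z * vp r l y b ≤ N * Real.log N ^ 25
  shal : ∀ u, 6 * w ≤ u → u + ⌈Real.log N ^ 6⌉₊ + 6 * w ≤ N + 1 →
    ∃ g, u ≤ g ∧ g < u + ⌈Real.log N ^ 6⌉₊ ∧ Shal r l (Real.log N ^ 7) w g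
  sp : ∑ y ∈ Finset.range (N - 1), ∑ z ∈ Finset.range (y + 1), vp r l z y ≤ C1 * N
  sh : ∑ z ∈ Finset.Ico 1 N, ∑ y ∈ Finset.Ico z N, vh r l z y ≤ C1 * N

/-- the interface is not in a trap -/
structure Cen (N : ℕ) (r l : ℕ → ℝ) (x0 w : ℕ) : Prop where
  near : ∀ z x, x0 ≤ z + 6 * w → z ≤ x → x < x0 + 6 * w → RR r l z x ≤ (N : ℝ) ^ (1 / 20 : ℝ)
  rlow : ∀ b, x0 < b + 6 * w → b < x0 + 6 * w → (N : ℝ) ^ (-(1 / 20) : ℝ) ≤ r b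

/-- all window values near `p` are at most `v` -/
def Near (N : ℕ) (r l : ℕ → ℝ) (p : ℕ) (R v : ℝ) : Prop :=
  (∀ z y : ℕ, z ≤ y → y + 1 < N → (p : ℝ) ≤ z + R → (y : ℝ) ≤ p + R → vp r l z y ≤ v) ∧
  (∀ z y : ℕ, 1 ≤ z → z ≤ y → y < N → (p : ℝ) ≤ z + R → (y : ℝ) ≤ p + R → vh r l z y ≤ v)

/-- capacity condition: every window can be split -/
def CAPc (N : ℕ) (r l : ℕ → ℝ) (κ : ℝ) : Prop := ∀ A B : ℕ, 1 ≤ A → A ≤ B → B + 1 < N →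
  (B : ℝ) ≤ A + Real.log N ^ 8 → ∃ y, A ≤ y ∧ y ≤ B ∧ vp r l y B ≤ κ ∧ vh r l A y ≤ κ

/-- no deep hole climb before (or overlapping in one bond) a deep particle climb -/
def NoHP (N : ℕ) (r l : ℕ → ℝ) (A B : ℕ) (θ : ℝ) : Prop := ∀ a z y b : ℕ, A < a → a ≤ z →
  z ≤ y + 1 → y ≤ b → b + 1 < B → (b : ℝ) ≤ a + Real.log N ^ 8 →
  ¬ (θ < vh r l a z ∧ θ < vp r l y b)

/-- mirror symmetry of the conditions -/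
def ST_IMIR : Prop := ∀ (N : ℕ) (r l : ℕ → ℝ),
  (∀ z y, z ≤ y → y < N → RR (mirr N r) (mirr N l) z y = RR r l (N - 1 - y) (N - 1 - z)) ∧
  (∀ z y, z ≤ y → y + 1 < N →
    vp (mirr N r) (mirr N l) z y = vh r l (N - 1 - y) (N - 1 - z)) ∧
  (∀ z y, 1 ≤ z → z ≤ y → y < N →
    vh (mirr N r) (mirr N l) z y = vp r l (N - 1 - y) (N - 1 - z)) ∧
  (∀ w C1, GE N r l w C1 → GE N (mirr N r) (mirr N l) w C1) ∧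
  (∀ x0 w, x0 ≤ N → 6 * w ≤ x0 → x0 + 6 * w ≤ N → Cen N r l x0 w →
    Cen N (mirr N r) (mirr N l) (N - x0) w) ∧
  (∀ p R v, p < N → Near N r l p R v → Near N (mirr N r) (mirr N l) (N - 1 - p) R v) ∧
  (∀ κ, CAPc N r l κ → CAPc N (mirr N r) (mirr N l) κ) ∧
  (∀ A B θ, A ≤ B → B ≤ N → NoHP N r l A B θ → NoHP N (mirr N r) (mirr N l) (N - B) (N - A) θ)

/-- pair bounds and capacity give the absence of hole-particle pairs -/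
def ST_NOP2 : Prop := ∀ (N w : ℕ) (r l : ℕ → ℝ) (C1 κ θ : ℝ), GE N r l w C1 → CAPc N r l κ →
  0 < κ → κ < θ → N * Real.log N ^ 25 < θ ^ 2 → N * Real.log N ^ 25 * κ ^ 2 < θ ^ 3 →
  NoHP N r l 0 N θ

/-! ### from cuts to the hypotheses of the brigade -/

/-- first reservoir of size `5w+s` -/
def BD.adj (L : BD) (s : ℕ) : BD :=
  { L with e := fun v => if v = 1 then L.g 1 + 5 * L.w + s else L.e v }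

/-- local conditions for brigade data -/
structure BD.Ok (L : BD) (r l : ℕ → ℝ) (D θ η0 ell : ℝ) : Prop where
  shal : ∀ v, 1 ≤ v → v ≤ L.V → Shal r l D L.w (L.g v)
  str : ∀ v, 1 ≤ v → v ≤ L.V + 1 → ∀ z y, L.st v ≤ z → z ≤ y → y + 3 * L.w < L.G v →
    vp r l z y ≤ θ
  sum : ∀ v, 1 ≤ v → v ≤ L.V + 1 →
    ∑ y ∈ Finset.Ico (L.st v) (L.G v - 3 * L.w), atb r l η0 L.w (L.st v) y ≤ 3 * ell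
  res : ∀ v, 1 ≤ v → v ≤ L.V → ∃ θ' : ℝ, θ' ≤ θ ∧
    ((L.e v : ℝ) - L.g v) * (L.w * (1 + η0) ^ L.w * θ') ≤ ell ∧
    ∀ z y, L.g v + 2 * L.w < z → z ≤ y → y < L.e v → vh r l z y ≤ θ'

/-- the size of the first reservoir can be changed -/
def ST_ADJ : Prop := ∀ (r l : ℕ → ℝ) (L : BD) (q0 Q1 d s1 : ℕ) (θ θA D η0 ell : ℝ),
  (∀ x, 0 < r x ∧ 0 ≤ l x) → L.Valid → 1 ≤ L.V → L.e 1 = L.g 1 + 5 * L.w + s1 →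
  L.g 1 ≤ L.A + d + 6 * L.w + q0 → 0 < η0 → η0 ≤ 1 → 0 ≤ θA → θA ≤ θ → L.w ≤ Q1 →
  ((Q1 : ℝ) + 6 * L.w) * (L.w * (1 + η0) ^ L.w * θ) ≤ ell →
  ((d : ℝ) + s1 + q0 + 30 * L.w) * (L.w * (1 + η0) ^ L.w * θA) ≤ ell →
  (∀ z y, L.A ≤ z → z ≤ y → y < L.A + d + s1 + 2 * q0 + 30 * L.w + 2 * Q1 →
    vp r l z y ≤ θA ∧ (L.A < z → vh r l z y ≤ θA)) →
  (∀ z y, L.A ≤ z → z ≤ y → y < L.x0 → θ < vp r l z y → y < z + L.w) →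
  (∀ v, 1 ≤ v → v ≤ L.V → Shal r l D L.w (L.g v) ∧ (2 ≤ v → L.e v ≤ L.g v + Q1) ∧
    ∀ z y, L.g v + 2 * L.w < z → z ≤ y → y < L.e v → ¬ θ < vh r l z y) →
  (∀ v, 1 ≤ v → v ≤ L.V + 1 →
    (∀ z y, L.st v ≤ z → z ≤ y → y + 3 * L.w < L.G v → ¬ θ < vp r l z y) ∧
    ∑ y ∈ Finset.Ico (L.st v) (L.G v - 3 * L.w), atb r l η0 L.w (L.st v) y ≤ 2 * ell) →
  ∀ s, s ≤ s1 → (L.adj s).Valid ∧ (L.adj s).Ok r l D θ η0 ell ∧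
    (L.adj s).mis 1 L.A = (L.adj 0).mis 1 L.A + s

/-- the hypotheses of the brigade hold -/
def ST_HYP : Prop := ∀ C1 : ℝ, ∃ N0 : ℕ, ∀ (N τ w : ℕ) (r l : ℕ → ℝ) (θ : ℝ) (L : BD), N0 ≤ N →
  GE N r l w C1 → L.Valid → L.w = w → L.x0 ≤ N → Real.log N ^ 40 ≤ θ →
  L.Ok r l (Real.log N ^ 7) θ (1 / w) (θ * Real.log N ^ 12) →
  8 * N * Real.log N ^ 12 * θ ≤ τ →
  L.Hyp N r l τ ((N : ℝ) ^ (-9 : ℝ)) ((N : ℝ) ^ (-9 : ℝ))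

/-- brigade data for one half -/
def ST_BRD : Prop := ∀ C1 : ℝ, 0 ≤ C1 → ∃ N0 : ℕ, ∀ (N τ w A x0 d s1 : ℕ) (r l : ℕ → ℝ)
  (θ θA : ℝ), N0 ≤ N → GE N r l w C1 → Real.log N ^ 40 ≤ θ → θ ≤ N →
  N * Real.log N ^ 25 < θ ^ 2 → 0 ≤ θA → θA ≤ θ →
  ((d : ℝ) + s1 + Real.log N ^ 7) * θA ≤ Real.log N ^ 9 * θ →
  (A : ℝ) + d + s1 + Real.log N ^ 8 ≤ x0 → x0 < N → NoHP N r l A (x0 + 1) θ →
  (∀ z y : ℕ, A ≤ z → z ≤ y → (y : ℝ) < A + d + s1 + Real.log N ^ 8 →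
    vp r l z y ≤ θA ∧ (A < z → vh r l z y ≤ θA)) →
  (∀ z y : ℕ, A ≤ z → z ≤ y → y < x0 → (x0 : ℝ) ≤ y + 3 * Real.log N ^ 7 → vp r l z y ≤ θ) →
  8 * N * Real.log N ^ 12 * θ ≤ τ →
  ∃ L : BD, L.A = A ∧ L.x0 = x0 ∧ L.w = w ∧ 1 ≤ L.V ∧ A + d + 5 * w ≤ L.g 1 ∧
    (L.V : ℝ) ≤ Real.log N * N / θ ∧
    ((L.adj 0).mis 1 A : ℝ) ≤ Real.log N ^ 9 * N / θ ∧
    ∀ s, s ≤ s1 → (L.adj s).Valid ∧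
      (L.adj s).Hyp N r l τ ((N : ℝ) ^ (-9 : ℝ)) ((N : ℝ) ^ (-9 : ℝ)) ∧
      (L.adj s).mis 1 A = (L.adj 0).mis 1 A + s

/-- regime II: from `n` to `L^10 N / θ` misplaced particles -/
def ST_BRIG2 : Prop := ∀ (C1 c : ℝ), 0 ≤ C1 → 0 < c → ∃ N0 : ℕ, ∀ (N k w n : ℕ) (r l : ℕ → ℝ)
  (θ κ : ℝ), N0 ≤ N → c * N ≤ k → (k : ℝ) ≤ (1 - c) * N → GE N r l w C1 →
  Cen N r l (N - k) w →
  (∀ p, p = 0 ∨ p = N - 1 ∨ p = N - k →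
    Near N r l p (2 * Real.log N ^ 8) ((N : ℝ) ^ (1 / 4 : ℝ))) →
  CAPc N r l κ → κ < θ → N * Real.log N ^ 25 * κ ^ 2 < θ ^ 3 →
  (N : ℝ) ^ (21 / 40 : ℝ) ≤ θ → θ ≤ N → (n : ℝ) ≤ c / 2 * N →
  ∃ σ : ℕ → Finset ℕ, (∀ i, σ i ⊆ full N) ∧ ∀ η : Cfg N, ht η 0 = k → cnt η 0 (N - k) ≤ n →
    pr r l σ (3 * ⌈8 * (N : ℝ) * Real.log N ^ 12 * θ⌉₊ * n)
      {ξ | Real.log N ^ 10 * N / θ < cnt ξ 0 (N - k)} η ≤ (N : ℝ) ^ (-5 : ℝ)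

/-- deterministic theorem 3: time between `N^(9/8)` and `N^2 / L^200` -/
def ST_DT3 : Prop := ∀ (ε δ γ η0 Cs C1 c1 c : ℝ) (m0 : ℕ), 0 < ε → ε ≤ 1 → 0 < δ → 0 < γ →
  γ ≤ 1 → 0 < η0 → η0 ≤ 1 → 0 ≤ Cs → 0 ≤ C1 → 0 < c1 → c1 ≤ 1 → 0 < c → ∃ N0 : ℕ,
  ∀ (N k : ℕ) (r l : ℕ → ℝ) (w m1 : ℕ) (as κ : ℝ), N0 ≤ N → c * N ≤ k →
  (k : ℝ) ≤ (1 - c) * N → GEnv N k r l w m0 η0 as γ Cs C1 c1 (ε / 32) →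
  GE N r (modl N l) w C1 → Cen N r (modl N l) (N - k) w →
  (∀ p, p = 0 ∨ p = N - 1 ∨ p = N - k →
    Near N r (modl N l) p (2 * Real.log N ^ 8) ((N : ℝ) ^ (1 / 4 : ℝ))) →
  CAPc N r (modl N l) κ → κ ≤ 2 * Real.log N ^ 9 * ((m1 : ℝ) / (2 * N)) / N →
  ε / 4 ≤ pr r l (fun _ => full N) m1 (sorted 0 (N - k - m0) (N - k + m0) N) (bot N k) →
  (N : ℝ) ^ (9 / 8 : ℝ) ≤ (m1 : ℝ) / (2 * N) →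
  (m1 : ℝ) / (2 * N) ≤ (N : ℝ) ^ 2 / Real.log N ^ 200 →
  (N : ℝ) ^ (1 + 2 * γ) * as ≤ ((m1 : ℝ) / (2 * N)) ^ (3 / 2 : ℝ) →
  nohit r l (full N) {top N k} ⌈(1 + δ) * (m1 : ℝ)⌉₊ (bot N k) ≤ ε / 4

/-- capacity from the current, bulk windows -/
def ST_CAPLOW : Prop := ∀ (ε c c2 : ℝ) (m0 : ℕ), 0 < ε → 0 < c → 0 < c2 → ∃ N0 : ℕ,
  ∀ (N k : ℕ) (r l : ℕ → ℝ) (m1 A B : ℕ), N0 ≤ N → c * N ≤ k → (k : ℝ) ≤ (1 - c) * N →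
  Adm N r l → c2 * N ≤ A → A ≤ B → (B : ℝ) ≤ A + Real.log N ^ 8 →
  (B : ℝ) + 1 ≤ (1 - c2) * N →
  ε / 4 ≤ pr r l (fun _ => full N) m1 (sorted 0 (N - k - m0) (N - k + m0) N) (bot N k) →
  ∃ y, A ≤ y ∧ y ≤ B ∧ vp r l y B ≤ Real.log N ^ 9 * ((m1 : ℝ) / (2 * N)) / N ∧
    vh r l A y ≤ Real.log N ^ 9 * ((m1 : ℝ) / (2 * N)) / N

/-- modified left rates change the window values by little -/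
def ST_CAPM : Prop := ∃ N0 : ℕ, ∀ (N : ℕ) (r l : ℕ → ℝ), N0 ≤ N → Adm N r l →
  (∀ x, 1 ≤ x → x < N → (N : ℝ) ^ (-2 : ℝ) ≤ r x) →
  (∀ z x, z ≤ x → x < N → RR r l z x ≤ (N : ℝ) ^ (2 : ℝ)) →
  (∀ z x, z ≤ x → x < N → RR r l z x ≤ RR r (modl N l) z x ∧
    RR r (modl N l) z x ≤ RR r l z x + (N : ℝ) ^ (-90 : ℝ)) ∧
  (∀ z y, z ≤ y → y + 1 < N → vp r l z y ≤ vp r (modl N l) z y ∧
    vp r (modl N l) z y ≤ vp r l z y + 1) ∧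
  (∀ z y, 1 ≤ z → z ≤ y → y < N → vh r l z y ≤ vh r (modl N l) z y ∧
    vh r (modl N l) z y ≤ vh r l z y + 1)

/-! ### random environment -/

/-- modified left rates of an environment -/
noncomputable def mE (N : ℕ) (w : ℕ → ℝ) : ℕ → ℝ := modl N (lE w)

/-- moments for the modified rates -/
def ST_MOMM : Prop := ∀ (Ω : Type) [MeasurableSpace Ω] (P : Measure Ω) (X : ℕ → Ω → ℝ) (θ : ℝ),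
  IIDE P X → 0 < θ → θ < 1 → Mom P X 1 ≤ ENNReal.ofReal θ → ∃ (C θ' : ℝ) (N0 : ℕ), 0 < C ∧
  θ < θ' ∧ θ' < 1 ∧ ∀ N : ℕ, N0 ≤ N →
  (∀ z x : ℕ, z ≤ x →
    ∫⁻ ω, ENNReal.ofReal (RR (rE (EE X ω)) (mE N (EE X ω)) z x) ∂P ≤
      ENNReal.ofReal (C * θ' ^ (x - z)) ∧
    ∫⁻ ω, ENNReal.ofReal (vp (rE (EE X ω)) (mE N (EE X ω)) z x) ∂P ≤
      ENNReal.ofReal (C * θ' ^ (x - z)) ∧
    (1 ≤ z → ∫⁻ ω, ENNReal.ofReal (vh (rE (EE X ω)) (mE N (EE X ω)) z x) ∂P ≤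
      ENNReal.ofReal (C * θ' ^ (x - z)))) ∧
  (∀ z y z' y' : ℕ, z ≤ y → y < z' → z' ≤ y' →
    ∫⁻ ω, ENNReal.ofReal (vp (rE (EE X ω)) (mE N (EE X ω)) z y *
      vp (rE (EE X ω)) (mE N (EE X ω)) z' y') ∂P ≤ ENNReal.ofReal C) ∧
  (∀ z y z' y' : ℕ, 1 ≤ z → z ≤ y → y < z' → z' ≤ y' →
    ∫⁻ ω, ENNReal.ofReal (vh (rE (EE X ω)) (mE N (EE X ω)) z y *
      vh (rE (EE X ω)) (mE N (EE X ω)) z' y') ∂P ≤ ENNReal.ofReal C) ∧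
  (∀ a z y b : ℕ, 1 ≤ a → a ≤ z → z ≤ y → y ≤ b →
    ∫⁻ ω, ENNReal.ofReal (vh (rE (EE X ω)) (mE N (EE X ω)) a z *
      vp (rE (EE X ω)) (mE N (EE X ω)) y b) ∂P ≤ ENNReal.ofReal C)

/-- pair products -/
def ST_EVPAIR : Prop := ∀ (Ω : Type) [MeasurableSpace Ω] (P : Measure Ω) (X : ℕ → Ω → ℝ) (θ : ℝ),
  IIDE P X → 0 < θ → θ < 1 → Mom P X 1 ≤ ENNReal.ofReal θ → ∀ ηp : ℝ, 0 < ηp →
  ∃ N0 : ℕ, ∀ N : ℕ, N0 ≤ N →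
  P {ω | ¬ ((∀ z y z' y' : ℕ, z ≤ y → y < z' → z' ≤ y' → y' + 1 < N →
        (y' : ℝ) ≤ z + Real.log N ^ 8 →
        vp (rE (EE X ω)) (mE N (EE X ω)) z y * vp (rE (EE X ω)) (mE N (EE X ω)) z' y' ≤
          N * Real.log N ^ 25) ∧
      (∀ z y z' y' : ℕ, 1 ≤ z → z ≤ y → y < z' → z' ≤ y' → y' < N →
        (y' : ℝ) ≤ z + Real.log N ^ 8 →
        vh (rE (EE X ω)) (mE N (EE X ω)) z y * vh (rE (EE X ω)) (mE N (EE X ω)) z' y' ≤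
          N * Real.log N ^ 25) ∧
      (∀ a z y b : ℕ, 1 ≤ a → a ≤ z → z ≤ y → y ≤ b → b + 1 < N →
        (b : ℝ) ≤ a + Real.log N ^ 8 →
        vh (rE (EE X ω)) (mE N (EE X ω)) a z * vp (rE (EE X ω)) (mE N (EE X ω)) y b ≤
          N * Real.log N ^ 25))} ≤ ENNReal.ofReal ηp

/-- shallow spots -/
def ST_EVSHAL : Prop := ∀ (Ω : Type) [MeasurableSpace Ω] (P : Measure Ω) (X : ℕ → Ω → ℝ) (θ : ℝ),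
  IIDE P X → 0 < θ → θ < 1 → Mom P X 1 ≤ ENNReal.ofReal θ → ∀ ηp : ℝ, 0 < ηp →
  ∃ N0 : ℕ, ∀ N w : ℕ, N0 ≤ N → 1 ≤ w → (w : ℝ) ≤ Real.log N ^ 2 →
  P {ω | ¬ ∀ u, 6 * w ≤ u → u + ⌈Real.log N ^ 6⌉₊ + 6 * w ≤ N + 1 →
      ∃ g, u ≤ g ∧ g < u + ⌈Real.log N ^ 6⌉₊ ∧
        Shal (rE (EE X ω)) (mE N (EE X ω)) (Real.log N ^ 7) w g} ≤ ENNReal.ofReal ηp

/-- sums of the window values and values near a site -/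
def ST_EVSM : Prop := ∀ (Ω : Type) [MeasurableSpace Ω] (P : Measure Ω) (X : ℕ → Ω → ℝ) (θ : ℝ),
  IIDE P X → 0 < θ → θ < 1 → Mom P X 1 ≤ ENNReal.ofReal θ → ∀ ηp : ℝ, 0 < ηp →
  (∃ (C1 : ℝ) (N0 : ℕ), 0 ≤ C1 ∧ ∀ N : ℕ, N0 ≤ N →
    P {ω | ¬ (∑ y ∈ Finset.range (N - 1), ∑ z ∈ Finset.range (y + 1),
          vp (rE (EE X ω)) (mE N (EE X ω)) z y ≤ C1 * N ∧
        ∑ z ∈ Finset.Ico 1 N, ∑ y ∈ Finset.Ico z N,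
          vh (rE (EE X ω)) (mE N (EE X ω)) z y ≤ C1 * N)} ≤ ENNReal.ofReal ηp) ∧
  (∃ N0 : ℕ, ∀ N p : ℕ, N0 ≤ N → p < N →
    P {ω | ¬ Near N (rE (EE X ω)) (mE N (EE X ω)) p (2 * Real.log N ^ 8)
      ((N : ℝ) ^ (1 / 4 : ℝ))} ≤ ENNReal.ofReal ηp) ∧
  (∃ N0 : ℕ, ∀ N x0 w : ℕ, N0 ≤ N → 6 * w ≤ x0 → x0 + 6 * w ≤ N → (w : ℝ) ≤ Real.log N ^ 2 →
    P {ω | ¬ Cen N (rE (EE X ω)) (mE N (EE X ω)) x0 w} ≤ ENNReal.ofReal ηp)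

/-- general exchangeability: the largest value of a local functional is attained in the bulk -/
def ST_EXG : Prop := ∀ (Ω : Type) [MeasurableSpace Ω] (P : Measure Ω) (X : ℕ → Ω → ℝ),
  IIDE P X → ∀ ηp : ℝ, 0 < ηp → ∃ c2 : ℝ, 0 < c2 ∧ c2 < 1 / 4 ∧ ∀ γ : ℝ, 0 < γ →
  ∃ N0 : ℕ, ∀ (N R : ℕ) (F : (ℕ → ℝ) → ℝ) (v0 : ℝ), N0 ≤ N → (R : ℝ) ≤ Real.log N ^ 9 →
  Measurable F → (∀ e e' : ℕ → ℝ, (∀ i, i < R → e i = e' i) → F e = F e') →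
  P {ω | v0 < F (fun i => X i ω)} ≤ ENNReal.ofReal ((N : ℝ) ^ (-γ)) →
  P {ω | ∃ z : ℕ, z + R ≤ N ∧ v0 < F (fun i => X (z + i) ω) ∧
    ¬ ∃ z' : ℕ, c2 * N ≤ z' ∧ (z' : ℝ) + R ≤ (1 - c2) * N ∧
      F (fun i => X (z + i) ω) ≤ F (fun i => X (z' + i) ω)} ≤ ENNReal.ofReal ηp

/-- the capacity condition in the bulk implies it everywhere -/
def ST_EXCAP : Prop := ∀ (Ω : Type) [MeasurableSpace Ω] (P : Measure Ω) (X : ℕ → Ω → ℝ) (θ : ℝ),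
  IIDE P X → 0 < θ → θ < 1 → Mom P X 1 ≤ ENNReal.ofReal θ → ∀ ηp : ℝ, 0 < ηp →
  ∃ c2 : ℝ, 0 < c2 ∧ c2 < 1 / 4 ∧ ∀ γ : ℝ, 0 < γ → ∃ N0 : ℕ, ∀ N : ℕ, N0 ≤ N →
  P {ω | ¬ ∀ κ : ℝ, (N : ℝ) ^ γ ≤ κ →
      (∀ A B : ℕ, c2 * N ≤ A → A ≤ B → (B : ℝ) ≤ A + Real.log N ^ 8 →
        (B : ℝ) + 1 ≤ (1 - c2) * N → ∃ y, A ≤ y ∧ y ≤ B ∧
        vp (rE (EE X ω)) (lE (EE X ω)) y B ≤ κ ∧ vh (rE (EE X ω)) (lE (EE X ω)) A y ≤ κ) →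
      CAPc N (rE (EE X ω)) (lE (EE X ω)) κ} ≤ ENNReal.ofReal ηp

/-- everything about the environment -/
def ST_ENV2 : Prop := ∀ (Ω : Type) [MeasurableSpace Ω] (P : Measure Ω) (X : ℕ → Ω → ℝ) (s : ℝ),
  IIDE P X → 1 ≤ s → Mom P X s < 1 → ∀ c ηp e0 γ : ℝ, 0 < c → 0 < ηp → 0 < e0 → 0 < γ →
  γ ≤ 1 →
  ∃ (η0 Cs C1 c1 c2 : ℝ) (m0 : ℕ), 0 < η0 ∧ η0 ≤ 1 ∧ 0 ≤ Cs ∧ 0 ≤ C1 ∧ 0 < c1 ∧
  c1 ≤ 1 ∧ 0 < c2 ∧ c2 < 1 / 4 ∧ ∃ N0 : ℕ, ∀ N k : ℕ, N0 ≤ N → c * N ≤ k → (k : ℝ) ≤ (1 - c) * N →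
  P {ω | ¬ ∃ (w : ℕ) (as : ℝ),
      GEnv N k (rE (EE X ω)) (lE (EE X ω)) w m0 η0 as γ Cs C1 c1 e0 ∧
      GE N (rE (EE X ω)) (mE N (EE X ω)) w C1 ∧ Cen N (rE (EE X ω)) (mE N (EE X ω)) (N - k) w ∧
      (∀ p, p = 0 ∨ p = N - 1 ∨ p = N - k →
        Near N (rE (EE X ω)) (mE N (EE X ω)) p (2 * Real.log N ^ 8) ((N : ℝ) ^ (1 / 4 : ℝ))) ∧
      as ≤ (N : ℝ) ^ (1 / s + 3 * γ) ∧
      (∀ κ : ℝ, (N : ℝ) ^ γ ≤ κ →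
        (∀ A B : ℕ, c2 * N ≤ A → A ≤ B → (B : ℝ) ≤ A + Real.log N ^ 8 →
          (B : ℝ) + 1 ≤ (1 - c2) * N → ∃ y, A ≤ y ∧ y ≤ B ∧
          vp (rE (EE X ω)) (lE (EE X ω)) y B ≤ κ ∧ vh (rE (EE X ω)) (lE (EE X ω)) A y ≤ κ) →
        CAPc N (rE (EE X ω)) (lE (EE X ω)) κ) ∧
      (∀ κ : ℝ, CAPc N (rE (EE X ω)) (lE (EE X ω)) κ →
        as ≤ (N : ℝ) ^ (2 * γ) * (κ ^ 2 + (N : ℝ) ^ (1 / 4 : ℝ)))} ≤ ENNReal.ofReal ηp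

/-- nestling and marginal nestling laws with a moment of order larger than one -/
def ST_MAINN2 : Prop := ∀ (Ω : Type) [MeasurableSpace Ω] (P : Measure Ω) (X : ℕ → Ω → ℝ) (s : ℝ),
  IIDE P X → 1 < s → Mom P X s < 1 → (∀ t : ℝ, 0 < t → P {ω | X 0 ω < 1 / 2 + t} ≠ 0) →
  CutGoal P X

/-- the final theorem of this part -/
def ST_MAIN2 : Prop := ∀ (Ω : Type) [MeasurableSpace Ω] (P : Measure Ω) (X : ℕ → Ω → ℝ) (s : ℝ)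
  (k : ℕ → ℕ), IIDE P X → 1 < s → Mom P X s < 1 → (∀ N, k N ≤ N) →
  0 < liminf (fun N => (k N : ℝ) / N) atTop → limsup (fun N => (k N : ℝ) / N) atTop < 1 →
  (∀ N, 1 ≤ N → ∀ ω, ∃! π : Conf N (k N) → ℝ, IsStatC (EE X ω) N (k N) π) ∧
  ∀ π : (N : ℕ) → Ω → Conf N (k N) → ℝ, (∀ N, 1 ≤ N → ∀ ω, IsStatC (EE X ω) N (k N) (π N ω)) →
  ∀ ε δ : ℝ, 0 < ε → ε < 1 / 2 → 0 < δ →
  Tendsto (fun N => P {ω | δ < |tmix (EE X ω) N (k N) (π N ω) ε /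
    tmix (EE X ω) N (k N) (π N ω) (1 - ε) - 1|}) atTop (𝓝 0)

end Pool.Agent.Helper98.EX
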