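import Pool.Agent.Helper98.EY.AssemblyB
import Pool.Agent.Helper53.EY.BARR
import Pool.Agent.Helper2.EY.BCOPEN
import Pool.Agent.Helper63.EY.BCPH
import Pool.Agent.Helper59.EY.CAPUP
import Pool.Agent.Helper83.EY.CMOM
import Pool.Agent.Helper58.EY.DT4
import Pool.Agent.Helper8.EY.ENDZ
import Pool.Agent.Helper25.EY.ENV4
import Pool.Agent.Helper81.EY.EVEND
import Pool.Agent.Helper81.EY.EVNS
import Pool.Agent.Helper85.EY.EVSLOW
import Pool.Agent.Helper8.EY.EVTRI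
import Pool.Agent.Helper97.EY.EXB
import Pool.Agent.Helper24.EY.GAINC
import Pool.Agent.Helper95.EY.HZN
import Pool.Agent.Helper81.EY.MAIN4
import Pool.Agent.Helper68.EY.MAINN4
import Pool.Agent.Helper30.EY.MSB
import Pool.Agent.Helper7.EY.MSJ
import Pool.Agent.Helper15.EY.MSR
import Pool.Agent.Helper35.EY.RED
import Pool.Agent.Helper11.EY.RTM
import Pool.Agent.Helper81.EY.SEN
import Pool.Agent.Helper61.EY.SPOT
import Pool.Agent.Helper91.EY.ST0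
import Pool.Agent.Helper57.EY.TBN
import Pool.Agent.Helper67.EY.TRANS
import Pool.Agent.Helper37.EY.TWOG

namespace Pool.Agent.Helper98.EX

theorem a_TBN : ST_TBN := st_TBN
theorem a_TWOG : ST_TWOG := st_TWOG a_TBN
theorem a_RTM : ST_RTM := st_RTM
theorem a_CMOM : ST_CMOM := st_CMOM
theorem a_CAPUP : ST_CAPUP := st_CAPUP a_TWOG a_CMOM a_RTM a_TIME
theorem a_GAINC : ST_GAINC := st_GAINC a_TWOG a_CMOM a_RTM a_GAIN a_TIME
theorem a_BCOPEN : ST_BCOPEN := st_BCOPEN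
theorem a_BCPH : ST_BCPH := st_BCPH a_BCOPEN a_QG a_LOC
theorem a_SPOT : ST_SPOT := st_SPOT
theorem a_RED : ST_RED := st_RED a_SPOT a_BRD a_BB a_IMIR a_QG a_MIR
theorem a_MSR : ST_MSR := st_MSR a_RED a_PAR
theorem a_MSB : ST_MSB := st_MSB a_BCPH a_PAR
theorem a_MSJ : ST_MSJ := st_MSJ a_MSB a_MSR
theorem a_HZN : ST_HZN := st_HZN
theorem a_TRANS : ST_TRANS := st_TRANS a_STREAM a_LOC
theorem a_ST0 : ST_ST0 := st_ST0 a_MSR a_HZN
theorem a_ENDZ : ST_ENDZ := st_ENDZ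
theorem a_SEN : ST_SEN := st_SEN a_CAPM
theorem a_DT4 : ST_DT4 :=
  st_DT4 a_TRANS a_ST0 a_HZN a_MSJ a_ENDZ a_CAPUP a_FIN a_SEN a_GS a_CENS a_RATE
theorem a_EVTRI : ST_EVTRI := st_EVTRI a_MOMM
theorem a_EVSLOW : ST_EVSLOW := st_EVSLOW a_MOMM
theorem a_EVEND : ST_EVEND := st_EVEND a_MOMM
theorem a_EVNS : ST_EVNS := st_EVNS a_MOMM
theorem a_EXB : ST_EXB := st_EXB a_EXG
theorem a_BARR : ST_BARR := st_BARR
theorem a_ENV4 : ST_ENV4 :=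
  st_ENV4 a_JEN a_EVFAR a_EVSUM a_EVNEAR a_EVMAX a_EVPAIR a_EVSHAL a_EVSM a_EXCAP a_CAPM a_EVTRI
    a_EVSLOW a_EVEND a_EVNS a_EXB a_BARR
theorem a_MAINN4 : ST_MAINN4 :=
  st_MAINN4 a_ENV4 a_STR a_DT1 a_DT3 a_DT4 a_GS a_CAPLOW a_CAPM a_GAINC a_STRLOW a_LOW a_STATTAIL
    a_STC a_CUT
theorem a_MAIN4 : ST_MAIN4 := st_MAIN4 a_MAINN4 a_MAINNN a_STC

end Pool.Agent.Helper98.EX
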