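import Pool.Agent.Helper98.EY.BRIG2b

set_option autoImplicit false

namespace Pool.Agent.Helper98.EX

open Finset

theorem brig2_subset (N : ℕ) : Finset.Ioo 0 N ⊆ full N := by
  intro x hx
  rw [Finset.mem_Ioo] at hx
  rw [full, Finset.mem_Ico]
  exact ⟨hx.1, hx.2⟩

theorem st_BRIG2 (hBRD : ST_BRD) (hBB : ST_BB) (hNOP : ST_NOP2) (hIM : ST_IMIR) (hQG : ST_QG)
    (hM : ST_MIR) : ST_BRIG2 := by
  intro C1 c hC1 hc
  obtain ⟨N1, h1⟩ := brig2_half hBRD C1 c hC1 hc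
  obtain ⟨N2, h2⟩ := brig2_cen hQG C1
  -- growth facts
  have hlog : Filter.Tendsto (fun N : ℕ => Real.log N) Filter.atTop Filter.atTop :=
    Real.tendsto_log_atTop.comp tendsto_natCast_atTop_atTop
  have g1 : ∀ᶠ N : ℕ in Filter.atTop, 2 ≤ Real.log N := hlog.eventually_ge_atTop 2
  have gl : ∀ (j : ℕ) (a b : ℝ), 0 < a → 0 < b → ∀ᶠ N : ℕ in Filter.atTop,
      Real.log N ^ j < b * (N : ℝ) ^ a := by
    intro j a b ha hb
    have h1 := (isLittleO_log_rpow_rpow_atTop (s := a) (j : ℝ) ha).comp_tendsto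
      (tendsto_natCast_atTop_atTop (R := ℝ))
    have h2 := h1.bound (show (0 : ℝ) < b / 2 by positivity)
    filter_upwards [h2, g1, Filter.eventually_ge_atTop 1] with N h3 h4 h5
    have h6 : (1 : ℝ) ≤ N := by exact_mod_cast h5
    have h7 : 0 < (N : ℝ) ^ a := by positivity
    simp only [Function.comp_apply, Real.norm_eq_abs, Real.rpow_natCast] at h3
    rw [abs_of_nonneg (by positivity), abs_of_pos h7] at h3
    have : b / 2 * (N : ℝ) ^ a < b * (N : ℝ) ^ a := by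
      apply mul_lt_mul_of_pos_right _ h7
      linarith
    linarith
  have f := (g1.and ((gl 25 (1 / 20) 1 (by norm_num) one_pos).and
    ((gl 9 (21 / 40) (c / 2) (by norm_num) (by positivity)).and
    ((gl 2 1 (c / 4) one_pos (by positivity)).and (gl 1 (21 / 40) 1 (by norm_num) one_pos)))))
  obtain ⟨N0, hN0⟩ := Filter.eventually_atTop.1 ((f.and (Filter.eventually_ge_atTop 9)).and
    ((Filter.eventually_ge_atTop N1).and (Filter.eventually_ge_atTop N2)))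
  refine ⟨N0, fun N k w n r l θ κ hN hk1 hk2 hGE hCen hnear hcap hκθ hκ3 hθ1 hθ2 hn => ?_⟩
  obtain ⟨⟨⟨f1, f2, f3, f4, f5⟩, f6⟩, f7, f8⟩ := hN0 N hN
  rw [one_mul] at f2 f5
  rw [Real.rpow_one] at f4
  rw [pow_one] at f5
  have hN' : (9 : ℝ) ≤ N := by exact_mod_cast f6
  have hNpos : (0 : ℝ) < N := by linarith
  have hθpos : 0 < θ := lt_of_lt_of_le (by positivity) hθ1
  have hL1 : 1 ≤ Real.log N := by linarith
  have hadm := hGE.adm
  -- the interface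
  have hkN : k ≤ N := by
    have : (k : ℝ) ≤ N := by nlinarith
    exact_mod_cast this
  have hk0 : 0 < k := by
    have : (0 : ℝ) < k := by
      have : 0 < c * N := by positivity
      linarith
    exact_mod_cast this
  obtain ⟨x0, hx0⟩ : ∃ x0, x0 = N - k := ⟨_, rfl⟩
  rw [← hx0] at hCen
  have hx0k : x0 + k = N := by omega
  have hx0k' : (x0 : ℝ) + k = N := by exact_mod_cast hx0k
  have hcx0 : c * N ≤ x0 := by
    have : (k : ℝ) ≤ N - c * N := by linarith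
    linarith
  have hx0N : x0 < N := by omega
  have hx0pos : 0 < x0 := by
    have : (0 : ℝ) < x0 := by
      have : 0 < c * N := by positivity
      linarith
    exact_mod_cast this
  have hkN' : k < N := by omega
  -- kappa is positive
  have hκ : 0 < κ := by
    obtain ⟨y, hy1, hy2, hy3, _⟩ := hcap 1 1 le_rfl le_rfl (by omega) (by
      have : 0 ≤ Real.log N ^ 8 := by positivity
      push_cast
      linarith)
    have hy : y = 1 := by omega
    subst hy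
    have h3 : vp r l 1 1 = 1 / r 2 := by
      unfold vp RR
      simp
    have h4 := (hGE.pos 2).1
    have h5 : 0 < 1 / r 2 := by positivity
    rw [h3] at hy3
    linarith
  -- no hole-particle pairs
  have hθsq : N * Real.log N ^ 25 < θ ^ 2 := by
    have e1 : (N : ℝ) * Real.log N ^ 25 < N * (N : ℝ) ^ (1 / 20 : ℝ) := mul_lt_mul_of_pos_left f2 hNpos
    have e2 : (N : ℝ) * (N : ℝ) ^ (1 / 20 : ℝ) = ((N : ℝ) ^ (21 / 40 : ℝ)) ^ 2 := by
      rw [← Real.rpow_natCast ((N : ℝ) ^ (21 / 40 : ℝ)) 2, ← Real.rpow_mul hNpos.le]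
      nth_rewrite 1 [← Real.rpow_one (N : ℝ)]
      rw [← Real.rpow_add hNpos]
      norm_num
    have e3 : ((N : ℝ) ^ (21 / 40 : ℝ)) ^ 2 ≤ θ ^ 2 := pow_le_pow_left₀ (by positivity) hθ1 2
    linarith
  have hno := hNOP N w r l C1 κ θ hGE hcap hκ hκθ hθsq hκ3
  obtain ⟨i1, i2, i3, i4, i5, i6, i7, i8⟩ := hIM N r l
  have hno' := i8 0 N θ (Nat.zero_le _) le_rfl hno
  rw [Nat.sub_self, Nat.sub_zero] at hno'
  have hGE' := i4 w C1 hGE
  -- the two halves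
  set τ := ⌈8 * (N : ℝ) * Real.log N ^ 12 * θ⌉₊ with hτ
  have hτ' : 8 * (N : ℝ) * Real.log N ^ 12 * θ ≤ τ := Nat.le_ceil _
  have hn0 := hnear 0 (Or.inl rfl)
  have hn1 := hnear (N - 1) (Or.inr (Or.inl rfl))
  have hn2 := hnear (N - k) (Or.inr (Or.inr rfl))
  obtain ⟨L, a1, a2, a3, a4, a5, a6, a7⟩ := h1 N τ w x0 x0 r l θ f7 hGE hθ1 hθ2 hno hcx0 hx0N hn0
    (by rw [hx0]; exact hn2) le_rfl (by omega) hτ'
  have hn1' := i6 (N - 1) _ _ (by omega) hn1
  rw [Nat.sub_self] at hn1'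
  have hn2' := i6 (N - k) _ _ (by omega) hn2
  obtain ⟨L', b1, b2, b3, b4, b5, b6, b7⟩ := h1 N τ w k (N - 1 - (N - k)) (mirr N r) (mirr N l) θ f7 hGE' hθ1 hθ2
    hno' hk1 hkN' hn1' hn2' (by omega) (by omega) hτ'
  -- positions
  obtain ⟨M0, hM0⟩ : ∃ M0, M0 = max (L.mis 1 0) (L'.mis 1 0) := ⟨_, rfl⟩
  have hM0' : (M0 : ℝ) ≤ Real.log N ^ 9 * N / θ := by
    rw [hM0]
    push_cast
    exact max_le a6 b6
  have hm1 : L.mis 1 0 ≤ M0 := by rw [hM0]; exact le_max_left _ _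
  have hm2 : L'.mis 1 0 ≤ M0 := by rw [hM0]; exact le_max_right _ _
  have hM1 : Real.log N ^ 9 * N / θ ≤ c / 2 * N := by
    rw [div_le_iff₀ hθpos]
    have e1 : Real.log N ^ 9 ≤ c / 2 * θ := by
      have : c / 2 * (N : ℝ) ^ (21 / 40 : ℝ) ≤ c / 2 * θ := mul_le_mul_of_nonneg_left hθ1 (by positivity)
      linarith
    calc Real.log N ^ 9 * N ≤ (c / 2 * θ) * N := mul_le_mul_of_nonneg_right e1 hNpos.le
      _ = c / 2 * N * θ := by ring
  have hMc : ((n + M0 : ℕ) : ℝ) ≤ c * N := by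
    push_cast
    linarith
  have hMx0 : n + M0 ≤ x0 := by
    have : ((n + M0 : ℕ) : ℝ) ≤ x0 := by linarith
    exact_mod_cast this
  have hMk : n + M0 ≤ k := by
    have : ((n + M0 : ℕ) : ℝ) ≤ k := by linarith
    exact_mod_cast this
  obtain ⟨v, p, hL, hp⟩ := brig2_find a1 (n + M0) (by rw [a2]; omega) (by rw [a2, a3]; omega)
  obtain ⟨v1, p1, hL1', hp1⟩ := brig2_find a1 M0 (by rw [a2]; omega) (by rw [a2, a3]; omega)
  obtain ⟨v', p', hL', hp'⟩ := brig2_find b1 (n + M0) (by rw [b2]; omega) (by rw [b2, b3]; omega)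
  obtain ⟨v1', p1', hL1'', hp1'⟩ := brig2_find b1 M0 (by rw [b2]; omega) (by rw [b2, b3]; omega)
  have r1 := brig2_rem a1 hL
  have r2 := brig2_rem a1 hL1'
  have r3 := brig2_rem b1 hL'
  have r4 := brig2_rem b1 hL1''
  have hnp : n ≤ p := by
    have := brig2_p_ge (L := L) (v := v) (p := p) (n := n) hL.1 (by rw [a2]; omega)
    rw [a2] at this
    omega
  have hnp' : n ≤ p' := by
    have := brig2_p_ge (L := L') (v := v') (p := p') (n := n) hL'.1 (by rw [b2]; omega)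
    rw [b2] at this
    omega
  -- the central window
  have hw4 : 4 * w ≤ x0 := by
    have e1 := hGE.wlog
    have : ((4 * w : ℕ) : ℝ) ≤ x0 := by
      push_cast
      linarith
    exact_mod_cast this
  have hcen := h2 N τ w x0 r l θ f8 hGE hCen hθ1 hτ' hw4
  -- the starting configuration
  obtain ⟨ζ, z1, z2, z3, z4⟩ := brig2_start hM (n := n) a1 b1 a2 b2 a3 b3 hx0k hL hL' hp hp' hnp hnp'
  have he : (0 : ℝ) ≤ (N : ℝ) ^ (-9 : ℝ) := by positivity
  obtain ⟨σ, s1, s2⟩ := hBB N r l 0 N x0 w n τ ((N : ℝ) ^ (-9 : ℝ)) ((N : ℝ) ^ (-9 : ℝ)) L L' v p v1 p1 v' p' v1' p1'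
    hadm (Nat.zero_le _) hx0N.le le_rfl he he a1 b1 a2 a3 a4 (by rw [b2, Nat.sub_self]) (by rw [b3]; omega) b4
    hL hL1' hL' hL1'' (by omega) (by omega) a7 b7
    (fun a b S η q1 q2 q3 q4 _ q6 q7 q8 q9 q10 => hcen a b S η q1 q2 q3 q4 q6 q7 q8 q9 q10)
  refine ⟨σ, fun i => (s1 i).trans (brig2_subset N), ?_⟩
  intro η hη hcη
  rw [← hx0] at hcη ⊢
  have t1 : cnt ζ 0 N = k := by
    have e1 := ht_cnt ζ (Nat.zero_le N) le_rfl
    rw [ht_ge (η := ζ) (le_refl N)] at e1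
    omega
  have t2 := s2 ζ z1 z2 (by rw [t1, hp, hp']; omega)
  have t3 := brig2_compare hadm hx0N.le (Real.log N ^ 10 * N / θ) σ (3 * τ * n) z3 hη (z4 η hη hcη)
  refine t3.trans ?_
  have t4 : pr r l σ (3 * τ * n) ({ξ | Real.log N ^ 10 * N / θ < cnt ξ 0 x0} : Set (Cfg N)) ζ ≤
      pr r l σ (3 * τ * n) {ξ | ¬ (ξ ∈ (L.Pat v1 p1 : Set (Cfg N)) ∧
        mir ξ ∈ (L'.Pat v1' p1' : Set (Cfg N)))} ζ := by
    apply pr_mono hadm
    intro ξ hξ hcon
    have e1 := brig2_cnt_pat_le a1 hL1' hcon.1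
    rw [a2, a3, hp1, a4] at e1
    have e2 : (cnt ξ 0 x0 : ℝ) ≤ M0 + w := by exact_mod_cast e1
    have e3 := hGE.wlog
    have hX : 1 ≤ (N : ℝ) / θ := by
      rw [one_le_div hθpos]
      exact hθ2
    have e4 : Real.log N ^ 9 * N / θ = Real.log N ^ 9 * (N / θ) := by ring
    have e5 : Real.log N ^ 10 * N / θ = Real.log N ^ 10 * (N / θ) := by ring
    have e6 : Real.log N ^ 2 ≤ Real.log N ^ 2 * (N / θ) := by
      have : 0 ≤ Real.log N ^ 2 := by positivity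
      nlinarith
    have e7 : Real.log N ^ 9 + Real.log N ^ 2 ≤ Real.log N ^ 10 := by
      have e8 : Real.log N ^ 2 ≤ Real.log N ^ 9 := pow_le_pow_right₀ hL1 (by norm_num)
      have e9 : Real.log N ^ 9 * 2 ≤ Real.log N ^ 9 * Real.log N := mul_le_mul_of_nonneg_left f1 (by positivity)
      have e10 : Real.log N ^ 9 * Real.log N = Real.log N ^ 10 := by ring
      linarith
    have e8 := mul_le_mul_of_nonneg_right e7 (show 0 ≤ (N : ℝ) / θ by positivity)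
    have e9 : Real.log N ^ 10 * N / θ < cnt ξ 0 x0 := hξ
    linarith
  refine t4.trans (t2.trans ?_)
  -- the error
  have hnN : (n : ℝ) ≤ N := by
    have : (n : ℝ) ≤ x0 := by exact_mod_cast (show n ≤ x0 by omega)
    have : (x0 : ℝ) ≤ N := by exact_mod_cast hx0N.le
    linarith
  have hVN : ∀ V : ℕ, (V : ℝ) ≤ Real.log N * N / θ → (V : ℝ) ≤ N := by
    intro V hV
    refine hV.trans ?_
    rw [div_le_iff₀ hθpos]
    have : Real.log N ≤ θ := by linarith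
    nlinarith
  have hV1 := hVN L.V a5
  have hV2 := hVN L'.V b5
  have e1 : (2 * (L.V : ℝ) + 2 * L'.V + 2) * (N : ℝ) ^ (-9 : ℝ) + (L.V + L'.V + 1) * (N : ℝ) ^ (-9 : ℝ) ≤
      9 * N * (N : ℝ) ^ (-9 : ℝ) := by
    rw [← add_mul]
    apply mul_le_mul_of_nonneg_right _ he
    linarith
  have e2 : (n : ℝ) * ((2 * (L.V : ℝ) + 2 * L'.V + 2) * (N : ℝ) ^ (-9 : ℝ) + (L.V + L'.V + 1) * (N : ℝ) ^ (-9 : ℝ)) ≤
      N * (9 * N * (N : ℝ) ^ (-9 : ℝ)) := by
    apply mul_le_mul hnN e1 _ hNpos.le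
    positivity
  refine e2.trans ?_
  have e3 : (N : ℝ) ^ (-5 : ℝ) = (N : ℝ) ^ 4 * (N : ℝ) ^ (-9 : ℝ) := by
    rw [← Real.rpow_natCast (N : ℝ) 4, ← Real.rpow_add hNpos]
    norm_num
  rw [e3]
  have e4 : (N : ℝ) * (9 * N * (N : ℝ) ^ (-9 : ℝ)) = (9 * N ^ 2) * (N : ℝ) ^ (-9 : ℝ) := by ring
  rw [e4]
  apply mul_le_mul_of_nonneg_right _ he
  have e5 : (9 : ℝ) ≤ N ^ 2 := by nlinarith
  nlinarith [mul_le_mul_of_nonneg_right e5 (show (0 : ℝ) ≤ N ^ 2 by positivity)]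

end Pool.Agent.Helper98.EX
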