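import Pool.Agent.Helper98.EX.Assembly
import Pool.Agent.Helper76.EY.ADJ
import Pool.Agent.Helper30.EY.BB
import Pool.Agent.Helper9.EY.BBA
import Pool.Agent.Helper2.EY.BRD
import Pool.Agent.Helper98.EY.BRIG2
import Pool.Agent.Helper7.EY.CAPLOW
import Pool.Agent.Helper89.EY.CAPM
import Pool.Agent.Helper53.EY.CUTS
import Pool.Agent.Helper79.EY.DT3
import Pool.Agent.Helper24.EY.ENV2
import Pool.Agent.Helper35.EY.EVPAIR
import Pool.Agent.Helper83.EY.EVSHAL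
import Pool.Agent.Helper86.EY.EVSM
import Pool.Agent.Helper83.EY.EXCAP
import Pool.Agent.Helper58.EY.EXG
import Pool.Agent.Helper97.EY.GPOIN
import Pool.Agent.Helper94.EY.HYP
import Pool.Agent.Helper89.EY.IMIR
import Pool.Agent.Helper58.EY.MAIN2
import Pool.Agent.Helper52.EY.MAINN2
import Pool.Agent.Helper57.EY.MFVAR
import Pool.Agent.Helper86.EY.MOMM
import Pool.Agent.Helper89.EY.MOVE2
import Pool.Agent.Helper58.EY.NOP2
import Pool.Agent.Helper61.EY.PAR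
import Pool.Agent.Helper45.EY.QG

namespace Pool.Agent.Helper98.EX

theorem a_MFVAR : ST_MFVAR := st_MFVAR
theorem a_GPOIN : ST_GPOIN := st_GPOIN a_MFVAR
theorem a_QG : ST_QG := st_QG a_GPOIN a_LOC a_TOPTAIL
theorem a_PAR : ST_PAR := st_PAR a_LOC
theorem a_MOVE2 : ST_MOVE2 := st_MOVE2 a_WALK
theorem a_BBA : ST_BBA := st_BBA
theorem a_BB : ST_BB := st_BB a_BBA a_PAR a_MIR a_LOC
theorem a_CUTS : ST_CUTS := st_CUTS
theorem a_ADJ : ST_ADJ := st_ADJ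
theorem a_IMIR : ST_IMIR := st_IMIR
theorem a_NOP2 : ST_NOP2 := st_NOP2
theorem a_HYP : ST_HYP := st_HYP a_MOVE2 a_QG a_MIR a_IMIR
theorem a_BRD : ST_BRD := st_BRD a_CUTS a_ADJ a_HYP
theorem a_BRIG2 : ST_BRIG2 := st_BRIG2 a_BRD a_BB a_NOP2 a_IMIR a_QG a_MIR
theorem a_DT3 : ST_DT3 := st_DT3 a_BRIG2 a_FIN a_HT a_CENS a_RATE a_GS
theorem a_CAPLOW : ST_CAPLOW := st_CAPLOW a_EPOCH a_GAIN
theorem a_CAPM : ST_CAPM := st_CAPM
theorem a_MOMM : ST_MOMM := st_MOMM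
theorem a_EVPAIR : ST_EVPAIR := st_EVPAIR a_MOMM
theorem a_EVSHAL : ST_EVSHAL := st_EVSHAL a_MOMM
theorem a_EVSM : ST_EVSM := st_EVSM a_MOMM
theorem a_EXG : ST_EXG := st_EXG
theorem a_EXCAP : ST_EXCAP := st_EXCAP a_EXG a_MOMM
theorem a_ENV2 : ST_ENV2 :=
  st_ENV2 a_JEN a_EVFAR a_EVSUM a_EVNEAR a_EVMAX a_EVPAIR a_EVSHAL a_EVSM a_EXCAP a_CAPM
theorem a_MAINN2 : ST_MAINN2 :=
  st_MAINN2 a_ENV2 a_STR a_DT1 a_DT3 a_GS a_CAPLOW a_CAPM a_STRLOW a_LOW a_STATTAIL a_STC a_CUT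
theorem a_MAIN2 : ST_MAIN2 := st_MAIN2 a_MAINN2 a_MAINNN a_STC

end Pool.Agent.Helper98.EX
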