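import Pool.Agent.Helper98.EX.Stmts3

/-!
# Full answer, part A: spectral gap of closed windows, parallel windows, bucket brigade, cuts
Every module X proves `theorem st_X (inputs : ST_Y) : ST_X`.
-/

namespace Pool.Agent.Helper98.EX

open Finset

/-! ### GAP: closed windows with any number of particles -/

/-- weight of a set -/
noncomputable def wset {V : Type} (ω : V → ℝ) (S : Finset V) : ℝ := ∏ v ∈ S, ω v

/-- variance bound by pair exchanges (mean field) -/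
def ST_MFVAR : Prop := ∀ (V : Type) [Fintype V] [DecidableEq V] (ω : V → ℝ) (j : ℕ)
  (f : Finset V → ℝ), (∀ v, 0 < ω v) →
  ∑ S ∈ Finset.powersetCard j univ, ∑ T ∈ Finset.powersetCard j univ,
      wset ω S * wset ω T * (f S - f T) ^ 2 ≤
    (∑ S ∈ Finset.powersetCard j univ, wset ω S) *
    ∑ S ∈ Finset.powersetCard j univ, ∑ x ∈ S, ∑ y ∈ Sᶜ,
      (wset ω S * wset ω (insert y (S.erase x)) / (wset ω S + wset ω (insert y (S.erase x)))) *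
        (f S - f (insert y (S.erase x))) ^ 2

/-- Poincare inequality for the nearest neighbour exclusion in a closed window -/
def ST_GPOIN : Prop := ∀ (N : ℕ) (r l : ℕ → ℝ) (A x0 B : ℕ) (D rmin : ℝ) (η0 : Cfg N)
  (f : Cfg N → ℝ),
  Adm N r l → Pos N l → A ≤ x0 → x0 ≤ B → A < B → B ≤ N → 0 < rmin →
  (∀ b, A < b → b < B → rmin ≤ r b) → 1 ≤ D →
  (∀ z x, A ≤ z → z ≤ x → x < B → RR r l z x ≤ D) →
  ∑ η ∈ XW A x0 B η0, ∑ ξ ∈ XW A x0 B η0,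
      pw r l A x0 B η * pw r l A x0 B ξ * (f η - f ξ) ^ 2 ≤
    (2 * ((B : ℝ) - A) ^ 5 * D ^ 2 / rmin) * (∑ η ∈ XW A x0 B η0, pw r l A x0 B η) *
    ∑ η ∈ XW A x0 B η0, ∑ b ∈ Finset.Ioo A B, pw r l A x0 B η * r b * (f (Rm b η) - f η) ^ 2

/-- closed window with any number of particles: sorted outside `[q1,q2)` after a long time -/
def ST_QG : Prop := ∀ (N : ℕ) (r l : ℕ → ℝ) (S : Finset ℕ) (A q1 x0 q2 B m : ℕ)
  (D rmin lmin : ℝ) (η : Cfg N),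
  Adm N r l → Pos N l → A ≤ x0 → q1 ≤ x0 → x0 ≤ q2 → x0 ≤ B → A < B → B ≤ N →
  A ∉ S → B ∉ S → (∀ x, A < x → x < B → x ∈ S) →
  0 < rmin → 0 < lmin → lmin ≤ 1 →
  (∀ b, A < b → b < B → rmin ≤ r b ∧ lmin ≤ l b) → 1 ≤ D →
  (∀ z x, A ≤ z → z ≤ x → x < B → RR r l z x ≤ D) →
  cnt η A B = B - x0 →
  pr r l (fun _ => S) m (sorted A q1 q2 B)ᶜ η ≤
    Real.exp (((B : ℝ) - A) ^ 2 * Real.log (1 / lmin) + ((B : ℝ) - A) * Real.log (2 * D) -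
      m * rmin / (4 * N * (((B : ℝ) - A) ^ 5 * D ^ 2))) +
    (∑ z ∈ Finset.Ico A q1, ∑ x ∈ Finset.Ico x0 B, RR r l z x +
    ∑ z ∈ Finset.Ico A x0, ∑ x ∈ Finset.Ico q2 B, RR r l z x)

/-! ### parallel windows -/

/-- windows evolving in parallel -/
def ST_PAR : Prop := ∀ (N : ℕ) (r l : ℕ → ℝ) (I : Finset ℕ) (a b : ℕ → ℕ)
  (σ : ℕ → ℕ → Finset ℕ) (m : ℕ) (G : ℕ → Set (Cfg N)) (err : ℕ → ℝ) (η : Cfg N),
  Adm N r l → (∀ i ∈ I, a i ≤ b i ∧ b i ≤ N) →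
  (∀ i ∈ I, ∀ j ∈ I, i ≠ j → b i ≤ a j ∨ b j ≤ a i) →
  (∀ i ∈ I, ∀ t, σ i t ⊆ Finset.Ioo (a i) (b i)) →
  (∀ i ∈ I, ∀ η ξ : Cfg N, (∀ x, a i ≤ x → x < b i → occ η x = occ ξ x) →
    (η ∈ G i ↔ ξ ∈ G i)) →
  (∀ i ∈ I, pr r l (σ i) m (G i)ᶜ η ≤ err i) →
  pr r l (fun t => I.biUnion (fun i => σ i t)) m
    {ξ | ¬ ((∀ i ∈ I, ξ ∈ G i ∧ cnt ξ (a i) (b i) = cnt η (a i) (b i)) ∧
      (∀ x, (∀ i ∈ I, x < a i ∨ b i ≤ x) → occ ξ x = occ η x))} η ≤ ∑ i ∈ I, err i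

/-! ### values of windows, truncated weights, one particle in a closed window -/

/-- particle value of the window `[z,y]` -/
noncomputable def vp (r l : ℕ → ℝ) (z y : ℕ) : ℝ := RR r l z y / r (y + 1)

/-- hole value of the window `[z,y]` -/
noncomputable def vh (r l : ℕ → ℝ) (z y : ℕ) : ℝ := RR r l z y / r z

/-- travel time weights, truncated at distance `w` and at the site `a` -/
noncomputable def atb (r l : ℕ → ℝ) (η0 : ℝ) (w a y : ℕ) : ℝ :=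
  ∑ d ∈ Finset.range (min w (y + 1 - a)), (1 + η0) ^ (d + 1) * vp r l (y - d) y

/-- one move of one particle that starts at the left end of a closed window -/
def ST_MOVE2 : Prop := ∀ (N : ℕ) (r l : ℕ → ℝ) (η0 as eps : ℝ) (w : ℕ) (S : Finset ℕ)
  (a m E τ : ℕ) (η : Cfg N),
  Adm N r l → Pos N l → 0 < η0 → η0 ≤ 1 → 1 ≤ w → 0 < as → 0 ≤ eps →
  a < m → m + w < E → E ≤ N → a ∉ S → E ∉ S → (∀ x, a < x → x < E → x ∈ S) →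
  cnt η a E = 1 → occ η a = true →
  (∀ y, a ≤ y → y < m + w → atb r l η0 w a y ≤ as) →
  (∀ y, a + w ≤ y → y < m + w → (1 + η0) ^ (w + 1) * RR r l (y - w) y ≤ η0 / 4) →
  (∀ z x, z + w ≤ x → x < N → RR r l z x ≤ eps) →
  pr r l (fun _ => S) τ {ξ | ∃ i, a ≤ i ∧ i < m ∧ occ ξ i = true} η ≤
    Real.exp (η0 / (4 * as) * (∑ y ∈ Finset.Ico a (m + w), atb r l η0 w a y - τ / (2 * N))) +
      N * eps

/-! ### bucket brigade, one half -/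

/-- brigade data for the left half of a window: cells `[e (v-1), e v)`, `1 ≤ v ≤ V`, with the
reservoir `[g v, e v)`; the last stretch `[e V, x0)` ends at the interface -/
structure BD where
  A : ℕ
  x0 : ℕ
  w : ℕ
  V : ℕ
  e : ℕ → ℕ
  g : ℕ → ℕ

/-- landing spots, `x0` after the last cell -/
def BD.G (L : BD) (v : ℕ) : ℕ := if v ≤ L.V then L.g v else L.x0

/-- admissible data -/
structure BD.Valid (L : BD) : Prop where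
  w1 : 1 ≤ L.w
  e0 : L.e 0 = L.A
  cell1 : ∀ v, 1 ≤ v → v ≤ L.V → L.e (v - 1) + 4 * L.w ≤ L.g v
  cell2 : ∀ v, 1 ≤ v → v ≤ L.V → L.g v + 5 * L.w ≤ L.e v
  last : L.e L.V + 4 * L.w ≤ L.x0

/-- legal positions of the front `p` in the cell `v`, `1 ≤ v ≤ V + 1` -/
def BD.Leg (L : BD) (v p : ℕ) : Prop := 1 ≤ v ∧ v ≤ L.V + 1 ∧ L.e (v - 1) ≤ p ∧ p ≤ L.G v

/-- pattern: source full up to the front `p` in the cell `v`, reservoirs full from `v` on -/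
def BD.Pat {N : ℕ} (L : BD) (v p : ℕ) : Set (Cfg N) := {η |
  (∀ x, L.A ≤ x → x < p → occ η x = true) ∧
  (∀ x, p ≤ x → x + L.w < L.G v → occ η x = false) ∧
  (v ≤ L.V → (∀ x, L.g v + L.w ≤ x → x < L.e v → occ η x = true) ∧
    cnt η p (L.e v) = L.e v - L.g v) ∧
  (∀ u, v < u → u ≤ L.V →
    (∀ x, L.e (u - 1) ≤ x → x + L.w < L.g u → occ η x = false) ∧
    (∀ x, L.g u + L.w ≤ x → x < L.e u → occ η x = true) ∧
    cnt η (L.e (u - 1)) (L.e u) = L.e u - L.g u) ∧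
  (v ≤ L.V → ∀ x, L.e L.V ≤ x → x + L.w < L.x0 → occ η x = false)}

/-- after phase A (particles have moved) -/
def BD.PatA {N : ℕ} (L : BD) (v p : ℕ) : Set (Cfg N) := {η |
  (∀ x, L.A ≤ x → x + 1 < p → occ η x = true) ∧
  (∀ x, p ≤ x + 1 → x + 4 * L.w < L.G v → occ η x = false) ∧
  (v ≤ L.V → (∀ x, L.g v + L.w ≤ x → x + 1 < L.e v → occ η x = true) ∧
    occ η (L.e v - 1) = false ∧ cnt η (p - 1) (L.e v) = L.e v - L.g v) ∧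
  (∀ u, v < u → u ≤ L.V →
    (∀ x, L.e (u - 1) ≤ x → x + 4 * L.w < L.g u → occ η x = false) ∧
    (∀ x, L.g u + L.w ≤ x → x + 1 < L.e u → occ η x = true) ∧
    occ η (L.e u - 1) = false ∧
    cnt η (L.e (u - 1)) (L.e u) = L.e u - L.g u) ∧
  (v ≤ L.V → ∀ x, L.e L.V ≤ x → x + 4 * L.w < L.x0 → occ η x = false)}

/-- after phase B (holes have moved) -/
def BD.PatB {N : ℕ} (L : BD) (v p : ℕ) : Set (Cfg N) := {η |
  (∀ x, L.A ≤ x → x + 1 < p → occ η x = true) ∧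
  (∀ x, p ≤ x + 1 → x + 4 * L.w < L.G v → occ η x = false) ∧
  (v ≤ L.V → (∀ x, L.g v + 4 * L.w ≤ x → x < L.e v → occ η x = true) ∧
    cnt η (p - 1) (L.e v) = L.e v - L.g v) ∧
  (∀ u, v < u → u ≤ L.V →
    (∀ x, L.e (u - 1) ≤ x → x + 4 * L.w < L.g u → occ η x = false) ∧
    (∀ x, L.g u + 4 * L.w ≤ x → x < L.e u → occ η x = true) ∧
    cnt η (L.e (u - 1)) (L.e u) = L.e u - L.g u) ∧
  (v ≤ L.V → ∀ x, L.e L.V ≤ x → x + 4 * L.w < L.x0 → occ η x = false)}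

/-- windows of phase A -/
def BD.WA (L : BD) (v p : ℕ) : Finset (ℕ × ℕ) :=
  (if p - 1 + 4 * L.w < L.G v then {(p - 1, L.G v - 2 * L.w)} else ∅) ∪
    (Finset.Icc v L.V).image (fun u => (L.e u - 1, L.G (u + 1) - 2 * L.w))

/-- windows of phase B -/
def BD.WB (L : BD) (v : ℕ) : Finset (ℕ × ℕ) :=
  (Finset.Icc v L.V).image (fun u => (L.g u + 2 * L.w, L.e u))

/-- windows of phase C (the central window is added separately) -/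
def BD.WC (L : BD) (v p : ℕ) : Finset (ℕ × ℕ) :=
  (if v ≤ L.V then {(max (p - 1) (L.g v - 4 * L.w), L.g v + 4 * L.w)} else ∅) ∪
    (Finset.Ioc v L.V).image (fun u => (L.g u - 4 * L.w, L.g u + 4 * L.w))

/-- left end of the central window of phase C -/
def BD.cl (L : BD) (v p : ℕ) : ℕ :=
  if v ≤ L.V then L.x0 - 4 * L.w else max (p - 1) (L.x0 - 4 * L.w)

/-- `ξ` agrees with `η` outside the windows, and the counts in the windows are the same -/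
def BD.Frz {N : ℕ} (L : BD) (W : Finset (ℕ × ℕ)) (η ξ : Cfg N) : Prop :=
  (∀ q ∈ W, cnt ξ q.1 q.2 = cnt η q.1 q.2) ∧
  (∀ x, L.A ≤ x → x < L.x0 → (∀ q ∈ W, x < q.1 ∨ q.2 ≤ x) → occ ξ x = occ η x)

/-- windows are disjoint and inside `[A, R)` -/
def Disj (W : Finset (ℕ × ℕ)) (A R : ℕ) : Prop :=
  (∀ q ∈ W, A ≤ q.1 ∧ q.1 < q.2 ∧ q.2 ≤ R) ∧
  (∀ q ∈ W, ∀ q' ∈ W, q ≠ q' → q.2 ≤ q'.1 ∨ q'.2 ≤ q.1)

/-- number of source particles -/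
def BD.rem (L : BD) (v p : ℕ) : ℕ :=
  (p - L.e (v - 1)) + ∑ u ∈ Finset.Ico 1 v, (L.g u - L.e (u - 1))

/-- number of misplaced particles -/
def BD.mis (L : BD) (v p : ℕ) : ℕ := (p - L.A) + ∑ u ∈ Finset.Icc v L.V, (L.e u - L.g u)

/-- BBA: one step of the brigade in one half, deterministic part -/
def ST_BBA : Prop := ∀ (N : ℕ) (L : BD) (v p : ℕ), L.Valid → L.Leg v p → L.e (v - 1) < p →
  L.x0 ≤ N →
  -- the windows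
  Disj (L.WA v p) L.A (L.x0 - 2 * L.w) ∧ Disj (L.WB v) L.A (L.x0 - 4 * L.w) ∧
  Disj (L.WC v p) L.A (L.x0 - 4 * L.w) ∧
  (∀ q ∈ L.WA v p, ∃ u, 1 ≤ u ∧ u ≤ L.V + 1 ∧ L.e (u - 1) ≤ q.1 + 1 ∧ L.A ≤ q.1 ∧
    q.1 + 4 * L.w < L.G u ∧ q.2 = L.G u - 2 * L.w) ∧
  (∀ q ∈ L.WB v, ∃ u, 1 ≤ u ∧ u ≤ L.V ∧ q.1 = L.g u + 2 * L.w ∧ q.2 = L.e u) ∧
  (∀ q ∈ L.WC v p, ∃ u, 1 ≤ u ∧ u ≤ L.V ∧ L.g u ≤ q.1 + 4 * L.w ∧ q.1 < L.g u ∧
    q.2 = L.g u + 4 * L.w) ∧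
  (L.x0 ≤ L.cl v p + 4 * L.w ∧ L.cl v p < L.x0 ∧ L.A ≤ L.cl v p) ∧
  -- phase A
  (∀ η ∈ (L.Pat v p : Set (Cfg N)), ∀ q ∈ L.WA v p, cnt η q.1 q.2 = 1 ∧ occ η q.1 = true) ∧
  (∀ η ξ : Cfg N, η ∈ (L.Pat v p : Set (Cfg N)) → L.Frz (L.WA v p) η ξ →
    (∀ q ∈ L.WA v p, ∀ x, q.1 ≤ x → x + 2 * L.w < q.2 → occ ξ x = false) →
    ξ ∈ (L.PatA v p : Set (Cfg N))) ∧
  -- phase B
  (∀ η ∈ (L.PatA v p : Set (Cfg N)), ∀ q ∈ L.WB v,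
    cnt η q.1 q.2 + 1 = q.2 - q.1 ∧ occ η (q.2 - 1) = false) ∧
  (∀ η ξ : Cfg N, η ∈ (L.PatA v p : Set (Cfg N)) → L.Frz (L.WB v) η ξ →
    (∀ q ∈ L.WB v, ∀ x, q.1 + 2 * L.w ≤ x → x < q.2 → occ ξ x = true) →
    ξ ∈ (L.PatB v p : Set (Cfg N))) ∧
  -- phase C
  (∀ η ∈ (L.PatB v p : Set (Cfg N)), ∀ q ∈ L.WC v p, cnt η q.1 q.2 = 4 * L.w) ∧
  (∀ η ∈ (L.PatB v p : Set (Cfg N)), cnt η L.A (L.cl v p) + 1 = L.mis v p) ∧
  (∀ (η ξ : Cfg N) (R : ℕ), L.x0 ≤ R → η ∈ (L.PatB v p : Set (Cfg N)) →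
    L.Frz (insert (L.cl v p, R) (L.WC v p)) η ξ →
    (∀ q ∈ L.WC v p, ξ ∈ (sorted q.1 (q.2 - 5 * L.w) (q.2 - 3 * L.w) q.2 : Set (Cfg N))) →
    (∀ x, L.cl v p ≤ x → x + L.w < L.x0 → occ ξ x = false) →
    ξ ∈ (L.Pat v (p - 1) : Set (Cfg N))) ∧
  -- change of the source cell
  (p - 1 = L.e (v - 1) → 2 ≤ v →
    (L.Pat v (p - 1) : Set (Cfg N)) = (L.Pat (v - 1) (L.g (v - 1)) : Set (Cfg N))) ∧
  -- number of misplaced particles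
  (∀ η ∈ (L.Pat v (p - 1) : Set (Cfg N)), p + L.w ≤ L.x0 →
    cnt η L.A (L.x0 - L.w) = L.mis v (p - 1))

/-- local hypotheses of the brigade for one half -/
structure BD.Hyp (L : BD) (N : ℕ) (r l : ℕ → ℝ) (τ : ℕ) (e1 e2 : ℝ) : Prop where
  part : ∀ (v a : ℕ) (S : Finset ℕ) (η : Cfg N), 1 ≤ v → v ≤ L.V + 1 → L.e (v - 1) ≤ a + 1 →
    L.A ≤ a → a + 4 * L.w < L.G v → a ∉ S → L.G v - 2 * L.w ∉ S →
    (∀ x, a < x → x < L.G v - 2 * L.w → x ∈ S) → cnt η a (L.G v - 2 * L.w) = 1 →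
    occ η a = true →
    pr r l (fun _ => S) τ {ξ | ∃ i, a ≤ i ∧ i + 4 * L.w < L.G v ∧ occ ξ i = true} η ≤ e1
  hole : ∀ (v : ℕ) (S : Finset ℕ) (η : Cfg N), 1 ≤ v → v ≤ L.V → L.g v + 2 * L.w ∉ S →
    L.e v ∉ S → (∀ x, L.g v + 2 * L.w < x → x < L.e v → x ∈ S) →
    cnt η (L.g v + 2 * L.w) (L.e v) + 1 = L.e v - (L.g v + 2 * L.w) →
    occ η (L.e v - 1) = false →
    pr r l (fun _ => S) τ {ξ | ∃ i, L.g v + 4 * L.w ≤ i ∧ i < L.e v ∧ occ ξ i = false} η ≤ e1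
  absb : ∀ (v a : ℕ) (S : Finset ℕ) (η : Cfg N), 1 ≤ v → v ≤ L.V → L.g v ≤ a + 4 * L.w →
    a < L.g v → L.A ≤ a → a ∉ S → L.g v + 4 * L.w ∉ S →
    (∀ x, a < x → x < L.g v + 4 * L.w → x ∈ S) → cnt η a (L.g v + 4 * L.w) = 4 * L.w →
    pr r l (fun _ => S) τ (sorted a (L.g v - L.w) (L.g v + L.w) (L.g v + 4 * L.w))ᶜ η ≤ e2

/-- BB: the brigade in both halves (right half in mirrored coordinates), `n` steps -/
def ST_BB : Prop := ∀ (N : ℕ) (r l : ℕ → ℝ) (A B x0 w n τ : ℕ) (e1 e2 : ℝ) (L L' : BD)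
  (v p v1 p1 v' p' v1' p1' : ℕ),
  Adm N r l → A ≤ x0 → x0 ≤ B → B ≤ N → 0 ≤ e1 → 0 ≤ e2 →
  L.Valid → L'.Valid → L.A = A → L.x0 = x0 → L.w = w →
  L'.A = N - B → L'.x0 = N - x0 → L'.w = w →
  L.Leg v p → L.Leg v1 p1 → L'.Leg v' p' → L'.Leg v1' p1' →
  L.rem v p = L.rem v1 p1 + n → L'.rem v' p' = L'.rem v1' p1' + n →
  L.Hyp N r l τ e1 e2 → L'.Hyp N (mirr N r) (mirr N l) τ e1 e2 →
  (∀ (a b : ℕ) (S : Finset ℕ) (η : Cfg N), x0 ≤ a + 4 * w → a < x0 → x0 < b → b ≤ x0 + 4 * w →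
    A ≤ a → b ≤ B → a ∉ S → b ∉ S → (∀ x, a < x → x < b → x ∈ S) → cnt η a b = b - x0 →
    pr r l (fun _ => S) τ (sorted a (x0 - w) (x0 + w) b)ᶜ η ≤ e2) →
  ∃ σ : ℕ → Finset ℕ, (∀ i, σ i ⊆ Finset.Ioo A B) ∧
    ∀ η : Cfg N, η ∈ (L.Pat v p : Set (Cfg N)) → mir η ∈ (L'.Pat v' p' : Set (Cfg N)) →
      cnt η A B + L'.mis v' p' = (B - x0) + L.mis v p →
      pr r l σ (3 * τ * n) {ξ | ¬ (ξ ∈ (L.Pat v1 p1 : Set (Cfg N)) ∧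
        mir ξ ∈ (L'.Pat v1' p1' : Set (Cfg N)))} η ≤
        n * ((2 * L.V + 2 * L'.V + 2) * e1 + (L.V + L'.V + 1) * e2)

/-! ### cuts -/

/-- shallow spot (symmetric under `g ↦ N - g`) -/
def Shal (r l : ℕ → ℝ) (D : ℝ) (w g : ℕ) : Prop :=
  (∀ z x, g ≤ z + 6 * w → z ≤ x → x < g + 6 * w → RR r l z x ≤ D) ∧
  (∀ b, g < b + 6 * w → b < g + 6 * w → 1 ≤ D * r b)

/-- start of the stretch before the landing spot `v` -/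
def BD.st (L : BD) (v : ℕ) : ℕ := max L.A (L.e (v - 1) - 1)

open Classical in
/-- existence of cells: every deep particle climb is cut, no deep hole climb in a reservoir -/
def ST_CUTS : Prop := ∀ (N : ℕ) (r l : ℕ → ℝ) (A x0 w q0 Q1 d s : ℕ) (θ θA D η0 ell : ℝ),
  (∀ x, 0 < r x ∧ 0 ≤ l x) → 1 ≤ w → 1 ≤ q0 → 1 ≤ D → D ^ 2 ≤ θ → 0 ≤ θA → θA ≤ θ →
  0 < η0 → η0 ≤ 1 → 64 * w + 16 * q0 + 64 ≤ Q1 →
  ((Q1 : ℝ) + 6 * w) * (w * (1 + η0) ^ w * θ) ≤ ell →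
  ((d : ℝ) + s + q0 + 30 * w) * (w * (1 + η0) ^ w * θA) ≤ ell →
  A + d + s + 2 * q0 + 30 * w + 3 * Q1 ≤ x0 → x0 ≤ N →
  -- pairs of disjoint deep particle climbs
  (∀ z1 y1 z2 y2, A ≤ z1 → z1 ≤ y1 → y1 < z2 → z2 ≤ y2 → y2 < x0 → y2 ≤ z1 + Q1 →
    ¬ (θ < vp r l z1 y1 ∧ θ < vp r l z2 y2)) →
  -- no deep hole climb directly before (or overlapping in one bond) a deep particle climb
  (∀ a z y b, A < a → a ≤ z → z ≤ y + 1 → A ≤ y → y ≤ b → b < x0 → b ≤ a + Q1 →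
    ¬ (θ < vh r l a z ∧ θ < vp r l y b)) →
  -- shallow spots
  (∀ u, A + 6 * w ≤ u → u + q0 + 6 * w ≤ x0 → ∃ g, u ≤ g ∧ g < u + q0 ∧ Shal r l D w g) →
  -- deep particle climbs are short
  (∀ z y, A ≤ z → z ≤ y → y < x0 → θ < vp r l z y → y < z + w) →
  -- near the left end and near the interface
  (∀ z y, A ≤ z → z ≤ y → y < A + d + s + 2 * q0 + 30 * w + 2 * Q1 →
    vp r l z y ≤ θA ∧ (A < z → vh r l z y ≤ θA)) →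
  (∀ z y, A ≤ z → z ≤ y → y < x0 → x0 ≤ y + 2 * Q1 → ¬ θ < vp r l z y) →
  ∃ L : BD, L.Valid ∧ L.A = A ∧ L.x0 = x0 ∧ L.w = w ∧ 1 ≤ L.V ∧ A + d + 5 * w ≤ L.g 1 ∧
    L.e 1 = L.g 1 + 5 * w + s ∧ L.g 1 ≤ A + d + 6 * w + q0 ∧
    (∀ z y, L.g 1 + 2 * w < z → z ≤ y → y < L.e 1 → vh r l z y ≤ θA) ∧
    (∀ v, 1 ≤ v → v ≤ L.V → Shal r l D w (L.g v) ∧ (2 ≤ v → L.e v ≤ L.g v + Q1) ∧
      ∀ z y, L.g v + 2 * w < z → z ≤ y → y < L.e v → ¬ θ < vh r l z y) ∧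
    (∀ v, 1 ≤ v → v ≤ L.V + 1 →
      (∀ z y, L.st v ≤ z → z ≤ y → y + 3 * w < L.G v → ¬ θ < vp r l z y) ∧
      ∑ y ∈ Finset.Ico (L.st v) (L.G v - 3 * w), atb r l η0 w (L.st v) y ≤ 2 * ell) ∧
    (L.V : ℝ) ≤ 2 * (∑ y ∈ Finset.Ico A x0, atb r l η0 w A y) / ell +
      ((Finset.Ico A x0).filter (fun y => ∃ z, A ≤ z ∧ z ≤ y ∧ θ < vp r l z y)).card + 2

end Pool.Agent.Helper98.EX
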